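import Pool.Agent.Y472.J.Defs
import Pool.Agent.Y458.CG.Mir
import Pool.Agent.Y814.PH.Exp

/-!
# Mirror images have complex conjugate coloured Jones polynomials (MIRX)
-/

set_option autoImplicit false

namespace Pool.Agent.Y472.CJ

open Finset Pool.Agent.W711.HT Pool.Agent.Y472 Pool.Agent.Y458.CG
open Pool.Agent.Y481 (wts)
open Pool.Agent.Y482.Ph (pz SB)
open scoped Real ComplexConjugate

lemma wts_neg (ls : List (ℤ × ℤ)) :
    (wts (ls.map fun p => (-p.1, -p.2))).sum = -(wts ls).sum := by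
  induction ls with
  | nil => simp [wts]
  | cons p l ih =>
    simp only [wts, List.map_cons, List.flatten_cons] at ih ⊢
    simp only [List.sum_append, List.sum_cons, List.sum_nil] at ih ⊢
    rw [ih]
    ring

lemma conj_unit (x : ℂ) (hx : ‖x‖ = 1) : conj x = x⁻¹ := by
  rw [Complex.inv_def, Complex.normSq_eq_norm_sq, hx]
  simp

lemma vN_norm (N : ℕ) : ‖vN N‖ = 1 := by
  unfold vN
  rw [Complex.norm_exp]
  have : ((π : ℂ) * Complex.I / N).re = 0 := by
    rw [mul_div_right_comm]
    simp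
  rw [this, Real.exp_zero]

lemma kp_norm (N : ℕ) : ‖Pool.Agent.W719.AR.kp N‖ = 1 := by
  unfold Pool.Agent.W719.AR.kp
  rw [norm_mul, Complex.norm_exp, norm_neg, Complex.norm_I, one_mul]
  have : (-(Complex.I * π * N / 4) + 3 * π * Complex.I / (4 * N)).re = 0 := by
    have h1 : -(Complex.I * π * N / 4) + 3 * π * Complex.I / (4 * N) =
        ((-(π * N / 4) + 3 * π / (4 * N) : ℝ) : ℂ) * Complex.I := by
      push_cast
      ring
    rw [h1, Complex.re_ofReal_mul, Complex.I_re, mul_zero]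
  rw [this, Real.exp_zero]

lemma pz_conj (N : ℕ) (ls : List (ℤ × ℤ)) (m : ℤ) :
    pz N (ls.map fun p => (-p.1, -p.2)) (-m) = conj (pz N ls m) := by
  unfold pz
  rw [wts_neg, List.length_map]
  simp only [map_mul, map_zpow₀, map_pow, map_neg, map_one]
  rw [conj_unit _ (vN_norm N), conj_unit _ (kp_norm N), mul_neg, zpow_neg, zpow_neg, inv_zpow,
    inv_zpow]

lemma sb_conj (N : ℕ) (ls : List (ℤ × ℤ)) (m : ℤ) :
    SB N (ls.map fun p => (-p.1, -p.2)) (-m) = conj (SB N ls m) := by
  unfold SB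
  have hr : ∀ p : ℕ, conj (2 * (π : ℂ) * p / N) = 2 * (π : ℂ) * p / N := by
    intro p
    simp only [map_div₀, map_mul, Complex.conj_ofReal, map_natCast, map_ofNat]
  have hd : ∀ p : ℕ, deriv (fun χ => wE N (-m) χ * Tf N (ls.map fun p => (-p.1, -p.2)) χ)
      (2 * π * p / N) = conj (deriv (fun χ => wE N m χ * Tf N ls χ) (2 * π * p / N)) := by
    intro p
    have : (fun χ => wE N (-m) χ * Tf N (ls.map fun p => (-p.1, -p.2)) χ) =
        conj ∘ (fun χ => wE N m χ * Tf N ls χ) ∘ conj := by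
      funext χ
      simp only [Function.comp, map_mul]
      rw [wE_neg, Tf_neg]
    rw [this, deriv_conj_conj, Function.comp_apply, Function.comp_apply, hr]
  have hs : ∀ p : ℕ, wE N (-m) (2 * π * p / N) * Thi N (ls.map fun p => (-p.1, -p.2)) p =
      conj (wE N m (2 * π * p / N) * Thi N ls p) := by
    intro p
    rw [wE_neg, Thi_neg, hr, map_mul]
  simp only [hd, hs]
  rw [← map_sum, ← map_sum]
  simp only [map_sub, map_mul, Complex.conj_I, map_intCast, map_natCast, map_ofNat, Int.cast_neg]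
  ring

/-- MIRX -/
theorem mirx : S_MIRX := by
  intro N ls m hN hl
  have hl' : (ls.map fun p => (-p.1, -p.2)) ≠ [] := by
    intro h
    exact hl (List.map_eq_nil_iff.mp h)
  rw [Pool.Agent.Y814.PH.exp_formula N ls m hN hl, Pool.Agent.Y814.PH.exp_formula N _ (-m) hN hl',
    pz_conj, sb_conj, map_mul]

end Pool.Agent.Y472.CJ
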