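import Pool.Agent.Y472.J.Defs
import Pool.Agent.Y563.CG.Ciz
import Pool.Agent.Y497.PH.Chix

/-! CB3-J-CIZX: the sum over `χ = 2 π p / N`, `|p| < N / 3`, with expansion. -/

set_option autoImplicit false

namespace Pool.Agent.Y472.CJ

open Filter Topology Metric Set MeasureTheory
open Pool.Agent.W711.HT hiding XX
open Pool.Agent.W719.AX (UX EXY)
open Pool.Agent.Y391.CB Pool.Agent.Y563.CG
open Pool.Agent.Y472 (wE RN GXo)
open Pool.Agent.Y497.PH (eI FkN eI_cont pN_sub xy_re xy_im)
open scoped Real Interval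

/-- the exponent -/
noncomputable def Qz (m : ℤ) (χ₀ : ℂ) (G : ℂ → ℂ) (w : ℂ) : ℂ :=
  Complex.I * m * (χ₀ + w) ^ 2 / (2 * π) + Complex.I * (χ₀ + w) + G w

theorem eI_eqz (m : ℤ) (χ₀ : ℂ) (X : ℕ → ℂ → ℂ) (G : ℂ → ℂ) (N : ℕ) (w : ℂ) :
    eI m X N (w + χ₀) = Complex.exp (N * Qz m χ₀ G w) *
      (Complex.exp (-(N * G w)) * X N (w + χ₀)) := by
  have e1 : Complex.exp (N * Qz m χ₀ G w) =
      Ea (2 * m) N (w + χ₀) * Complex.exp (Complex.I * N * (w + χ₀)) * Complex.exp (N * G w) := by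
    unfold Ea Qz
    rw [← Complex.exp_add, ← Complex.exp_add]
    congr 1
    push_cast
    ring
  have e2 : Complex.exp (N * G w) * Complex.exp (-(N * G w)) = 1 := by
    rw [← Complex.exp_add, add_neg_cancel, Complex.exp_zero]
  unfold eI
  rw [e1]
  linear_combination (-(Complex.exp (Complex.I * N * (w + χ₀)) * Ea (2 * m) N (w + χ₀) *
    X N (w + χ₀))) * e2

theorem eI_normz {m : ℤ} {χ₀ : ℂ} {X : ℕ → ℂ → ℂ} {G : ℂ → ℂ} {N : ℕ} {w : ℂ} {C₀ : ℝ}
    (h : ‖Complex.exp (-(N * G w)) * X N (w + χ₀)‖ ≤ C₀) :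
    ‖eI m X N (w + χ₀)‖ ≤ C₀ * Real.exp (N * (Qz m χ₀ G w).re) := by
  rw [eI_eqz m χ₀ X G, norm_mul, Complex.norm_exp]
  have : ((N : ℂ) * Qz m χ₀ G w).re = N * (Qz m χ₀ G w).re := by simp
  rw [this, mul_comm]
  exact mul_le_mul_of_nonneg_right h (Real.exp_pos _).le

theorem exp_small {h : ℝ} (hh0 : 0 < h) : ∀ᶠ N : ℕ in atTop, Real.exp (-(N * h)) ≤ 1 / 2 := by
  have h1 : Tendsto (fun N : ℕ => Real.exp (-(N * h))) atTop (𝓝 0) := by
    rw [Real.tendsto_exp_comp_nhds_zero]
    exact tendsto_neg_atTop_atBot.comp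
      (Tendsto.atTop_mul_const hh0 tendsto_natCast_atTop_atTop)
  exact (h1.eventually_lt_const (show (0 : ℝ) < 1 / 2 by norm_num)).mono fun N hN => hN.le

/-- absorbing constants -/
theorem absorb {κ : ℝ} (hκ : 0 < κ) (C V : ℝ) : ∀ᶠ N : ℕ in atTop,
    C * Real.exp (N * (V - κ)) ≤ Real.exp (N * (V - κ / 2)) := by
  filter_upwards [Pool.Agent.W588.HT.poly_le_exp |C| (κ := κ / 2) (by positivity)] with N h5
  have e1 : Real.exp (N * (V - κ / 2)) = Real.exp (N * (κ / 2)) * Real.exp (N * (V - κ)) := by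
    rw [← Real.exp_add]
    congr 1
    ring
  rw [e1]
  refine mul_le_mul_of_nonneg_right ?_ (Real.exp_pos _).le
  refine le_trans ?_ h5
  have hN' : (0 : ℝ) ≤ N := Nat.cast_nonneg N
  have := le_abs_self C
  have := mul_nonneg (abs_nonneg C) hN'
  linarith

theorem locz {m : ℤ} {χ₀ z : ℂ} {R c κ V C₀ η : ℝ} {X : ℕ → ℂ → ℂ} {G : ℂ → ℂ} (hR : 0 < R)
    (hR1 : R ≤ 1) (hRy : R < χ₀.im) (haR : |χ₀.re| + R < 2) (hc : 0 < c) (hκ : 0 < κ)
    (hX : ∀ N, Differentiable ℂ (X N)) (hXe : ∀ N w, X N (-w) = X N w) (hC₀ : 0 ≤ C₀)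
    (hU : ∀ᶠ N : ℕ in atTop, ∀ w ∈ Rc R R, ‖Complex.exp (-(N * G w)) * X N (w + χ₀)‖ ≤ C₀)
    (hz : z ∈ Rc (R / 4) (R / 4))
    (hline : ∀ x : ℝ, |x| ≤ R / 2 →
      (Qz m χ₀ G (x + z.im * Complex.I)).re ≤ V - c / 2 * (x - z.re) ^ 2)
    (hfar : ∀ᶠ N : ℕ in atTop, ∀ x : ℝ, |x| ≤ 2 * π / 3 → R / 2 ≤ |x - χ₀.re| →
      ‖wE N m (x + (χ₀ + z).im * Complex.I) * X N (x + (χ₀ + z).im * Complex.I)‖ ≤
        Real.exp (N * (V + (χ₀ + z).im - κ)))
    (hside : ∀ᶠ N : ℕ in atTop, ∀ y : ℝ, 0 ≤ y → y ≤ (χ₀ + z).im → ∀ σ : ℝ, |σ| = 1 →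
      ‖wE N m (σ * RN N + y * Complex.I) * X N (σ * RN N + y * Complex.I)‖ ≤
        Real.exp (N * (V + y - κ)))
    (hη : 0 < η) (hηR : |z.re| + η ≤ R / 2) :
    ∃ κ' : ℝ, 0 < κ' ∧ ∀ᶠ N : ℕ in atTop,
      ‖2 * (∫ x in (-RN N)..(RN N), wE N m (x + (χ₀ + z).im * Complex.I) *
          X N (x + (χ₀ + z).im * Complex.I) * kN N (x + (χ₀ + z).im * Complex.I)) -
        2 * Complex.I * (∫ y in (-(χ₀ + z).im)..(χ₀ + z).im, wE N m (RN N + y * Complex.I) *
          X N (RN N + y * Complex.I) * kN N (RN N + y * Complex.I)) -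
        ∫ x in (-η)..η, 2 * Complex.sin (z + x + χ₀) * eI m X N (z + x + χ₀)‖ ≤
      Real.exp (N * (V - κ')) := by
  have hpi := Real.pi_pos
  obtain ⟨h, hh⟩ : ∃ h : ℝ, h = (χ₀ + z).im := ⟨_, rfl⟩
  obtain ⟨r, hr⟩ : ∃ r : ℝ, r = z.re := ⟨_, rfl⟩
  obtain ⟨a, ha⟩ : ∃ a : ℝ, a = χ₀.re := ⟨_, rfl⟩
  have hh' : h = χ₀.im + z.im := by rw [hh, Complex.add_im]
  have hzim := abs_lt.1 hz.2
  have hzre := abs_lt.1 hz.1
  have hh0 : 0 < h := by rw [hh']; linarith [hzim.1]
  rw [← hh] at hfar hside ⊢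
  rw [← hr] at hline hηR hzre
  rw [← ha] at hfar haR
  -- κ₀ is the common constant
  obtain ⟨κ₀, hκ₀⟩ : ∃ κ₀ : ℝ, κ₀ = min κ (min h (c / 2 * η ^ 2)) := ⟨_, rfl⟩
  have hκ₀0 : 0 < κ₀ := by
    rw [hκ₀]
    exact lt_min hκ (lt_min hh0 (by positivity))
  have hκa : κ₀ ≤ κ := by rw [hκ₀]; exact min_le_left _ _
  have hκb : κ₀ ≤ h := by rw [hκ₀]; exact (min_le_right _ _).trans (min_le_left _ _)
  have hκc : κ₀ ≤ c / 2 * η ^ 2 := by rw [hκ₀]; exact (min_le_right _ _).trans (min_le_right _ _)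
  obtain ⟨D, hD⟩ : ∃ D : ℝ, D = 2 * (4 * π * 4) + 4 * h + 24 * (Real.exp h * C₀) := ⟨_, rfl⟩
  refine ⟨κ₀ / 2, by positivity, ?_⟩
  have haR' := abs_le.1 (show |a| ≤ 2 - R by linarith)
  have hrl := abs_le.1 (le_refl |r|)
  filter_upwards [hU, hfar, hside, exp_small hh0, eventually_ge_atTop 3, RN_ge,
    absorb hκ₀0 D V] with N h1 h2 h3 h4 h5 h6 h7
  have hN' : (0 : ℝ) ≤ N := Nat.cast_nonneg N
  have hRN := RN_le h5
  refine le_trans ?_ h7
  have hexpκ : ∀ t : ℝ, κ₀ ≤ t → Real.exp (N * (V - t)) ≤ Real.exp (N * (V - κ₀)) := by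
    intro t ht
    exact Real.exp_le_exp.2 (mul_le_mul_of_nonneg_left (by linarith) hN')
  -- the functions
  obtain ⟨P, hP⟩ : ∃ P : ℝ → ℂ, P = fun x : ℝ => wE N m (x + h * Complex.I) *
    X N (x + h * Complex.I) * kN N (x + h * Complex.I) := ⟨_, rfl⟩
  have hPc : Continuous P := by
    rw [hP]
    apply Continuous.mul
    · exact ((wE_diff N m).mul (hX N)).continuous.comp (by fun_prop)
    · unfold kN
      apply Continuous.div
      · fun_prop
      · fun_prop
      · intro x
        exact pow_ne_zero _ (e_ne (by omega) (by simpa using hh0))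
  obtain ⟨g, hg⟩ : ∃ g : ℝ → ℂ, g = fun x : ℝ => 2 * Complex.sin (x + z.im * Complex.I + χ₀) *
    eI m X N (x + z.im * Complex.I + χ₀) := ⟨_, rfl⟩
  have hgc : Continuous g := by
    rw [hg]
    exact (by fun_prop : Continuous fun x : ℝ =>
      2 * Complex.sin ((x : ℂ) + z.im * Complex.I + χ₀)).mul
      ((eI_cont m hX N).comp (by fun_prop))
  have hxh : ∀ x : ℝ, ((x + a : ℝ) : ℂ) + h * Complex.I = x + z.im * Complex.I + χ₀ := by
    intro x
    rw [hh', ha]
    conv_rhs => rw [← Complex.re_add_im χ₀]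
    push_cast
    ring
  -- the vertical side
  have hb : ∀ σ : ℝ, |σ| = 1 → ∀ y : ℝ, 0 ≤ y → y ≤ h →
      ‖wE N m (σ * RN N + y * Complex.I) * X N (σ * RN N + y * Complex.I) *
        kN N (σ * RN N + y * Complex.I)‖ ≤ Real.exp (N * (V - κ₀)) := by
    intro σ hσ y hy0 hy1
    have k5 := h3 y hy0 hy1 σ hσ
    have k6 := kN_side (show 1 ≤ N by omega) hσ y
    rw [norm_mul]
    calc ‖wE N m (σ * RN N + y * Complex.I) * X N (σ * RN N + y * Complex.I)‖ *
          ‖kN N (σ * RN N + y * Complex.I)‖ ≤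
        Real.exp (N * (V + y - κ)) * Real.exp (-(N * y)) := by gcongr
      _ = Real.exp (N * (V - κ)) := by
          rw [← Real.exp_add]; congr 1; ring
      _ ≤ _ := hexpκ κ hκa
  have hFo : ∀ w, wE N m (-w) * X N (-w) * kN N (-w) = -(wE N m w * X N w * kN N w) := by
    intro w
    rw [wE_odd, hXe, kN_neg]
    ring
  have hv : ‖2 * Complex.I * ∫ y in (-h)..h, wE N m (RN N + y * Complex.I) *
      X N (RN N + y * Complex.I) * kN N (RN N + y * Complex.I)‖ ≤
      4 * h * Real.exp (N * (V - κ₀)) := by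
    have k5 : ∀ y ∈ Set.uIoc (-h) h, ‖wE N m (RN N + y * Complex.I) *
        X N (RN N + y * Complex.I) * kN N (RN N + y * Complex.I)‖ ≤ Real.exp (N * (V - κ₀)) := by
      intro y hy
      rw [Set.uIoc_of_le (by linarith)] at hy
      rcases le_total 0 y with h0 | h0
      · have k6 := hb 1 (by norm_num) y h0 hy.2
        rw [Complex.ofReal_one, one_mul] at k6
        exact k6
      · have k6 := hb (-1) (by norm_num) (-y) (by linarith) (by linarith [hy.1])
        have e3 : ((((-1 : ℝ) : ℂ) * RN N) + (-y : ℝ) * Complex.I) = -(RN N + y * Complex.I) := by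
          push_cast
          ring
        rw [e3, hFo, norm_neg] at k6
        exact k6
    have k6 := intervalIntegral.norm_integral_le_of_norm_le_const k5
    have k7 : |h - -h| = 2 * h := by
      rw [abs_of_pos (by linarith)]
      ring
    rw [k7] at k6
    rw [norm_mul, norm_mul, Complex.norm_ofNat, Complex.norm_I, mul_one]
    calc _ ≤ 2 * (Real.exp (N * (V - κ₀)) * (2 * h)) := by gcongr
      _ = _ := by ring
  -- the far parts
  have hfp : ∀ u v : ℝ, u ≤ v → -RN N ≤ u → v ≤ RN N → (∀ x : ℝ, u ≤ x → x ≤ v →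
      R / 2 ≤ |x - a|) → ‖∫ x in u..v, P x‖ ≤ 4 * π * 4 / 2 * Real.exp (N * (V - κ₀)) := by
    intro u v huv hu hv hx
    have k5 : ∀ x ∈ Set.uIoc u v, ‖P x‖ ≤ 4 * Real.exp (N * (V - κ₀)) := by
      intro x hx'
      rw [Set.uIoc_of_le huv, Set.mem_Ioc] at hx'
      have k6 := h2 x (abs_le.2 ⟨by linarith [hx'.1], by linarith [hx'.2]⟩)
        (hx x hx'.1.le hx'.2)
      have k7 := kN_far (N := N) (h := h) (x := x) h4
      rw [hP, norm_mul]
      calc ‖wE N m (x + h * Complex.I) * X N (x + h * Complex.I)‖ * ‖kN N (x + h * Complex.I)‖ ≤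
          Real.exp (N * (V + h - κ)) * (4 * Real.exp (-(N * h))) := by gcongr
        _ = 4 * Real.exp (N * (V - κ)) := by
            have : Real.exp (N * (V - κ)) = Real.exp (N * (V + h - κ)) * Real.exp (-(N * h)) := by
              rw [← Real.exp_add]; congr 1; ring
            rw [this]
            ring
        _ ≤ _ := mul_le_mul_of_nonneg_left (hexpκ κ hκa) (by norm_num)
    have k6 := intervalIntegral.norm_integral_le_of_norm_le_const k5
    refine k6.trans ?_
    have k7 : |v - u| ≤ 2 * π := by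
      rw [abs_of_nonneg (by linarith)]
      linarith
    calc 4 * Real.exp (N * (V - κ₀)) * |v - u| ≤ 4 * Real.exp (N * (V - κ₀)) * (2 * π) := by
          gcongr
      _ = _ := by ring
  have hf1 := hfp (-RN N) (a - R / 2) (by linarith) le_rfl (by linarith) (by
    intro x _ hx
    rw [abs_sub_comm]
    exact le_trans (by linarith) (le_abs_self _))
  have hf2 := hfp (a + R / 2) (RN N) (by linarith) (by linarith) le_rfl (by
    intro x hx _
    exact le_trans (by linarith) (le_abs_self _))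
  -- the near part
  have hinl : ∀ x : ℝ, |x| ≤ R / 2 → (x : ℂ) + z.im * Complex.I ∈ Rc R R := by
    intro x hx
    refine ⟨?_, ?_⟩
    · rw [xy_re]
      linarith
    · rw [xy_im]
      have := hz.2
      linarith [abs_nonneg z.im]
  have hE : ∀ x : ℝ, |x| ≤ R / 2 → ‖eI m X N (x + z.im * Complex.I + χ₀)‖ ≤
      C₀ * Real.exp (N * (V - c / 2 * (x - r) ^ 2)) := by
    intro x hx
    refine (eI_normz (h1 _ (hinl x hx))).trans (mul_le_mul_of_nonneg_left ?_ hC₀)
    exact Real.exp_le_exp.2 (mul_le_mul_of_nonneg_left (hline x hx) hN')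
  have him : ∀ x : ℝ, ((x : ℂ) + z.im * Complex.I + χ₀).im = h := by
    intro x
    rw [← hxh, xy_im]
  have hsn : ∀ x : ℝ, ‖Complex.sin (x + z.im * Complex.I + χ₀)‖ ≤ Real.exp h := by
    intro x
    refine (Pool.Agent.W85.HT.norm_sin_le _).trans (Real.exp_le_exp.2 ?_)
    rw [him, abs_of_pos hh0]
  have hDD : ‖2 * (∫ x in (a - R / 2)..(a + R / 2), P x) - ∫ x in (-(R / 2))..(R / 2), g x‖ ≤
      20 * (Real.exp h * C₀) * Real.exp (N * (V - κ₀)) := by
    have e0 := intervalIntegral.integral_comp_add_right (a := -(R / 2)) (b := R / 2) P a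
    have e3 : -(R / 2) + a = a - R / 2 := by ring
    have e4 : R / 2 + a = a + R / 2 := by ring
    rw [e3, e4] at e0
    have e1 : 2 * (∫ x in (a - R / 2)..(a + R / 2), P x) =
        ∫ x in (-(R / 2))..(R / 2), 2 * P (x + a) := by
      rw [← e0, ← intervalIntegral.integral_const_mul]
    have hc1 : Continuous fun x : ℝ => 2 * P (x + a) := by fun_prop
    rw [e1, ← intervalIntegral.integral_sub (hc1.intervalIntegrable _ _)
      (hgc.intervalIntegrable _ _)]
    have k6 : ∀ x ∈ Set.uIoc (-(R / 2)) (R / 2), ‖2 * P (x + a) - g x‖ ≤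
        20 * (Real.exp h * C₀) * Real.exp (N * (V - κ₀)) := by
      intro x hx
      rw [Set.uIoc_of_le (by linarith), Set.mem_Ioc] at hx
      have hx' : |x| ≤ R / 2 := abs_le.2 ⟨hx.1.le, hx.2⟩
      have e2 : 2 * P (x + a) - g x =
          2 * ((pN N (x + z.im * Complex.I + χ₀) - Complex.sin (x + z.im * Complex.I + χ₀)) *
            eI m X N (x + z.im * Complex.I + χ₀)) := by
        rw [hP, hg]
        simp only
        rw [hxh, FkN]
        ring
      rw [e2, norm_mul, norm_mul, Complex.norm_ofNat]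
      have k7 := pN_sub (N := N) (him x) hh0 h4
      have k8 := hE x hx'
      have k9 : Real.exp (N * (V - c / 2 * (x - r) ^ 2)) ≤ Real.exp (N * V) := by
        apply Real.exp_le_exp.2
        apply mul_le_mul_of_nonneg_left _ hN'
        have : 0 ≤ c / 2 * (x - r) ^ 2 := by positivity
        linarith
      have k10 : Real.exp (-(N * h)) * Real.exp (N * V) ≤ Real.exp (N * (V - κ₀)) := by
        rw [← Real.exp_add]
        apply Real.exp_le_exp.2
        have := mul_le_mul_of_nonneg_left hκb hN'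
        linarith
      calc 2 * (‖pN N (x + z.im * Complex.I + χ₀) - Complex.sin (x + z.im * Complex.I + χ₀)‖ *
            ‖eI m X N (x + z.im * Complex.I + χ₀)‖) ≤
            2 * ((Real.exp h * (10 * Real.exp (-(N * h)))) * (C₀ * Real.exp (N * V))) := by
            apply mul_le_mul_of_nonneg_left _ (by norm_num)
            exact mul_le_mul k7 (k8.trans (mul_le_mul_of_nonneg_left k9 hC₀)) (norm_nonneg _)
              (by positivity)
        _ = 20 * (Real.exp h * C₀) * (Real.exp (-(N * h)) * Real.exp (N * V)) := by ring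
        _ ≤ _ := by gcongr
    have k7 := intervalIntegral.norm_integral_le_of_norm_le_const k6
    refine k7.trans ?_
    have k8 : |R / 2 - -(R / 2)| ≤ 1 := by
      rw [abs_of_nonneg (by linarith)]
      linarith
    have k9 : 0 ≤ 20 * (Real.exp h * C₀) * Real.exp (N * (V - κ₀)) := by positivity
    calc _ ≤ 20 * (Real.exp h * C₀) * Real.exp (N * (V - κ₀)) * 1 :=
          mul_le_mul_of_nonneg_left k8 k9
      _ = _ := by ring
  have hO : ∀ u v : ℝ, -(R / 2) ≤ u → u ≤ v → v ≤ R / 2 → (∀ x : ℝ, u ≤ x → x ≤ v →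
      η ≤ |x - r|) → ‖∫ x in u..v, g x‖ ≤ 2 * (Real.exp h * C₀) * Real.exp (N * (V - κ₀)) := by
    intro u v hu huv hvρ hx
    have k6 : ∀ x ∈ Set.uIoc u v, ‖g x‖ ≤ 2 * (Real.exp h * C₀) * Real.exp (N * (V - κ₀)) := by
      intro x hx'
      rw [Set.uIoc_of_le huv, Set.mem_Ioc] at hx'
      have hx1 : |x| ≤ R / 2 := abs_le.2 ⟨by linarith [hx'.1], by linarith [hx'.2]⟩
      have k8 := hE x hx1
      have k9 : Real.exp (N * (V - c / 2 * (x - r) ^ 2)) ≤ Real.exp (N * (V - κ₀)) := by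
        apply hexpκ
        have k11 := hx x hx'.1.le hx'.2
        have k12 : η ^ 2 ≤ (x - r) ^ 2 := by
          rw [← sq_abs (x - r)]
          exact pow_le_pow_left₀ hη.le k11 2
        have k13 : c / 2 * η ^ 2 ≤ c / 2 * (x - r) ^ 2 :=
          mul_le_mul_of_nonneg_left k12 (by positivity)
        linarith
      rw [hg]
      simp only
      rw [norm_mul, norm_mul, Complex.norm_ofNat]
      calc 2 * ‖Complex.sin (x + z.im * Complex.I + χ₀)‖ *
            ‖eI m X N (x + z.im * Complex.I + χ₀)‖ ≤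
            2 * Real.exp h * (C₀ * Real.exp (N * (V - κ₀))) := by
            apply mul_le_mul (mul_le_mul_of_nonneg_left (hsn x) (by norm_num))
              (k8.trans (mul_le_mul_of_nonneg_left k9 hC₀)) (norm_nonneg _) (by positivity)
        _ = _ := by ring
    have k7 := intervalIntegral.norm_integral_le_of_norm_le_const k6
    refine k7.trans ?_
    have k8 : |v - u| ≤ 1 := by
      rw [abs_of_nonneg (by linarith)]
      linarith
    have k9 : 0 ≤ 2 * (Real.exp h * C₀) * Real.exp (N * (V - κ₀)) := by positivity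
    calc _ ≤ 2 * (Real.exp h * C₀) * Real.exp (N * (V - κ₀)) * 1 :=
          mul_le_mul_of_nonneg_left k8 k9
      _ = _ := by ring
  have hO1 := hO (-(R / 2)) (r - η) le_rfl (by linarith) (by linarith) (by
    intro x _ hx
    rw [abs_sub_comm]
    exact le_trans (by linarith) (le_abs_self _))
  have hO2 := hO (r + η) (R / 2) (by linarith) (by linarith) le_rfl (by
    intro x hx _
    exact le_trans (by linarith) (le_abs_self _))
  have hsplit : (∫ x in (-(R / 2))..(R / 2), g x) =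
      (∫ x in (-(R / 2))..(r - η), g x) + (∫ x in (r - η)..(r + η), g x) +
        ∫ x in (r + η)..(R / 2), g x := by
    rw [intervalIntegral.integral_add_adjacent_intervals (hgc.intervalIntegrable _ _)
      (hgc.intervalIntegrable _ _), intervalIntegral.integral_add_adjacent_intervals
      (hgc.intervalIntegrable _ _) (hgc.intervalIntegrable _ _)]
  have hsplit2 : (∫ x in (-RN N)..(RN N), P x) =
      (∫ x in (-RN N)..(a - R / 2), P x) + (∫ x in (a - R / 2)..(a + R / 2), P x) +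
        ∫ x in (a + R / 2)..(RN N), P x := by
    rw [intervalIntegral.integral_add_adjacent_intervals (hPc.intervalIntegrable _ _)
      (hPc.intervalIntegrable _ _), intervalIntegral.integral_add_adjacent_intervals
      (hPc.intervalIntegrable _ _) (hPc.intervalIntegrable _ _)]
  have hsub : (∫ x in (-η)..η, 2 * Complex.sin (z + x + χ₀) * eI m X N (z + x + χ₀)) =
      ∫ x in (r - η)..(r + η), g x := by
    have k6 := intervalIntegral.integral_comp_add_left (a := -η) (b := η) g r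
    rw [sub_eq_add_neg, ← k6]
    apply intervalIntegral.integral_congr
    intro x _
    show 2 * Complex.sin (z + x + χ₀) * eI m X N (z + x + χ₀) = g (r + x)
    have e : (((r + x : ℝ) : ℂ) + z.im * Complex.I) = z + x := by
      rw [hr]
      push_cast
      conv_rhs => rw [← Complex.re_add_im z]
      ring
    rw [hg]
    simp only
    rw [e]
  rw [hsub]
  have e9 : 2 * (∫ x in (-RN N)..(RN N), wE N m (x + h * Complex.I) *
          X N (x + h * Complex.I) * kN N (x + h * Complex.I)) -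
        2 * Complex.I * (∫ y in (-h)..h, wE N m (RN N + y * Complex.I) *
          X N (RN N + y * Complex.I) * kN N (RN N + y * Complex.I)) -
          ∫ x in (r - η)..(r + η), g x =
      ((2 * (∫ x in (a - R / 2)..(a + R / 2), P x) - ∫ x in (-(R / 2))..(R / 2), g x) +
        ((∫ x in (-(R / 2))..(r - η), g x) + ∫ x in (r + η)..(R / 2), g x) +
        (2 * (∫ x in (-RN N)..(a - R / 2), P x) + 2 * ∫ x in (a + R / 2)..(RN N), P x)) -
        2 * Complex.I * (∫ y in (-h)..h, wE N m (RN N + y * Complex.I) *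
          X N (RN N + y * Complex.I) * kN N (RN N + y * Complex.I)) := by
    have e10 : (∫ x in (-RN N)..(RN N), wE N m (x + h * Complex.I) *
          X N (x + h * Complex.I) * kN N (x + h * Complex.I)) = ∫ x in (-RN N)..(RN N), P x := by
      rw [hP]
    rw [e10, hsplit, hsplit2]
    ring
  rw [e9]
  refine (norm_sub_le _ _).trans ?_
  have n1 := norm_add_le (2 * (∫ x in (a - R / 2)..(a + R / 2), P x) -
    (∫ x in (-(R / 2))..(R / 2), g x) + ((∫ x in (-(R / 2))..(r - η), g x) +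
      ∫ x in (r + η)..(R / 2), g x)) (2 * (∫ x in (-RN N)..(a - R / 2), P x) +
      2 * ∫ x in (a + R / 2)..(RN N), P x)
  have n2 := norm_add_le (2 * (∫ x in (a - R / 2)..(a + R / 2), P x) -
    (∫ x in (-(R / 2))..(R / 2), g x)) ((∫ x in (-(R / 2))..(r - η), g x) +
      ∫ x in (r + η)..(R / 2), g x)
  have n3 := norm_add_le (∫ x in (-(R / 2))..(r - η), g x) (∫ x in (r + η)..(R / 2), g x)
  have n4 := norm_add_le (2 * (∫ x in (-RN N)..(a - R / 2), P x))
    (2 * ∫ x in (a + R / 2)..(RN N), P x)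
  rw [norm_mul, norm_mul, Complex.norm_ofNat] at n4
  have n5 : D * Real.exp (N * (V - κ₀)) = 2 * (4 * π * 4 / 2 * Real.exp (N * (V - κ₀))) * 2 +
      4 * h * Real.exp (N * (V - κ₀)) +
      (20 * (Real.exp h * C₀) * Real.exp (N * (V - κ₀)) +
        2 * (2 * (Real.exp h * C₀) * Real.exp (N * (V - κ₀)))) := by
    rw [hD]
    ring
  rw [n5]
  linarith

/-- CIZX -/
theorem cizx : S_CIZX := by
  intro m χ₀ z R c κ V X G A hR hR1 hRy haR hc hκ hX hXe hG hG2 _ hGX hz hcr hV hfar hside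
  have hpi := Real.pi_pos
  have hpiC : (π : ℂ) ≠ 0 := by exact_mod_cast hpi.ne'
  have hopen : IsOpen (Rc R R) := Pool.Agent.W293.HT.isOpen_Rc _ _
  have hzim := abs_lt.1 hz.2
  have hzre := abs_lt.1 hz.1
  obtain ⟨Q, hQ⟩ : ∃ Q : ℂ → ℂ, Q = Qz m χ₀ G := ⟨_, rfl⟩
  have hzR : z ∈ Rc R R := ⟨by linarith [hz.1], by linarith [hz.2]⟩
  have hQd : DifferentiableOn ℂ Q (Rc R R) := by
    rw [hQ]
    unfold Qz
    exact (by fun_prop : Differentiable ℂ fun w : ℂ =>
      Complex.I * m * (χ₀ + w) ^ 2 / (2 * π) + Complex.I * (χ₀ + w)).differentiableOn.add hG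
  have hQder : ∀ w ∈ Rc R R, HasDerivAt Q
      (Complex.I * m * (χ₀ + w) / π + Complex.I + deriv G w) w := by
    intro w hw
    rw [hQ]
    have h1 := (hG.differentiableAt (hopen.mem_nhds hw)).hasDerivAt
    have h0 : HasDerivAt (fun w : ℂ => χ₀ + w) 1 w := (hasDerivAt_id w).const_add χ₀
    have h2 : HasDerivAt (fun w : ℂ => Complex.I * m * (χ₀ + w) ^ 2 / (2 * π))
        (Complex.I * m * (χ₀ + w) / π) w := by
      refine (((h0.pow 2).const_mul (Complex.I * m)).div_const (2 * π)).congr_deriv ?_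
      push_cast
      field_simp
    have h3 : HasDerivAt (fun w : ℂ => Complex.I * (χ₀ + w)) Complex.I w := by
      simpa using h0.const_mul Complex.I
    exact (h2.add h3).add h1
  have hQder2 : ∀ w ∈ Rc R R, HasDerivAt
      (fun w => Complex.I * m * (χ₀ + w) / π + Complex.I + deriv G w)
      (Complex.I * m / π + deriv (deriv G) w) w := by
    intro w hw
    have h1 := ((hG.deriv hopen).differentiableAt (hopen.mem_nhds hw)).hasDerivAt
    have h0 : HasDerivAt (fun w : ℂ => χ₀ + w) 1 w := (hasDerivAt_id w).const_add χ₀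
    have h2 : HasDerivAt (fun w : ℂ => Complex.I * m * (χ₀ + w) / π) (Complex.I * m / π) w := by
      simpa using (h0.const_mul (Complex.I * m)).div_const (π : ℂ)
    exact (h2.add_const Complex.I).add h1
  have hneg2 : ∀ w ∈ Rc R R, (Complex.I * m / π + deriv (deriv G) w).re ≤ -c := by
    intro w hw
    have h1 : (Complex.I * m / π).re = 0 := by
      have : Complex.I * m / π = ((m / π : ℝ) : ℂ) * Complex.I := by
        push_cast
        ring
      rw [this]
      simp
    rw [Complex.add_re, h1, zero_add]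
    exact hG2 w hw
  have hin : ∀ x : ℝ, |x| ≤ R / 2 → (x : ℂ) + z.im * Complex.I ∈ Rc R R := by
    intro x hx
    refine ⟨?_, ?_⟩
    · rw [xy_re]
      linarith
    · rw [xy_im]
      exact hzR.2
  have hzri : (z.re : ℂ) + z.im * Complex.I = z := Complex.re_add_im z
  have hQz : (Q z).re = V := by
    rw [hQ, hV]
    rfl
  have hline : ∀ x : ℝ, |x| ≤ R / 2 → (Qz m χ₀ G (x + z.im * Complex.I)).re ≤
      V - c / 2 * (x - z.re) ^ 2 := by
    intro x hx
    have h1 := Pool.Agent.W293.HT.quad_bound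
      (f := fun x : ℝ => (Q (x + z.im * Complex.I)).re)
      (f' := fun x : ℝ => (Complex.I * m * (χ₀ + (x + z.im * Complex.I)) / π + Complex.I +
        deriv G (x + z.im * Complex.I)).re)
      (f'' := fun x : ℝ => (Complex.I * m / π + deriv (deriv G) (x + z.im * Complex.I)).re)
      (r := R / 2) (c := c) (x0 := z.re)
      (fun x hx => Pool.Agent.W293.HT.hasDerivAt_line (hQder _ (hin x hx)))
      (fun x hx => Pool.Agent.W293.HT.hasDerivAt_line
        (Q := fun w => Complex.I * m * (χ₀ + w) / π + Complex.I + deriv G w)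
        (hQder2 _ (hin x hx)))
      (fun x hx => hneg2 _ (hin x hx))
      (by linarith [hz.1]) (by
        show (Complex.I * m * (χ₀ + (z.re + z.im * Complex.I)) / π + Complex.I +
          deriv G (z.re + z.im * Complex.I)).re = 0
        rw [hzri, hcr, Complex.zero_re]) hx
    simp only [hzri] at h1
    rw [hQz] at h1
    rw [← hQ]
    exact h1
  have hderQ : deriv Q z = 0 := by rw [(hQder z hzR).deriv, hcr]
  have hderQ2 : deriv (deriv Q) z = Complex.I * m / π + deriv (deriv G) z := by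
    have h1 : deriv Q =ᶠ[𝓝 z] fun w => Complex.I * m * (χ₀ + w) / π + Complex.I + deriv G w := by
      filter_upwards [hopen.mem_nhds hzR] with w hw
      exact (hQder w hw).deriv
    rw [h1.deriv_eq, (hQder2 z hzR).deriv]
  have hPz : Complex.sin (z + χ₀) ≠ 0 := by
    intro h0
    rw [Complex.sin_eq_zero_iff] at h0
    obtain ⟨k, hk⟩ := h0
    have h1 := congrArg Complex.im hk
    have h3 : ((k : ℂ) * π).im = 0 := by simp
    rw [Complex.add_im, h3] at h1
    linarith [hzim.1]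
  -- the ball
  have hball : ∀ u : ℂ, ‖u‖ ≤ R / 4 → z + u ∈ Rc R R := by
    intro u hu
    have k1 := Complex.abs_re_le_norm u
    have k2 := Complex.abs_im_le_norm u
    have k3 := hz.1
    have k4 := hz.2
    refine ⟨?_, ?_⟩
    · rw [Complex.add_re]
      have := abs_add_le z.re u.re
      linarith
    · rw [Complex.add_im]
      have := abs_add_le z.im u.im
      linarith
  have hmaps : Set.MapsTo (fun u : ℂ => z + u) (ball 0 (R / 4)) (Rc R R) := by
    intro u hu
    rw [mem_ball_zero_iff] at hu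
    exact hball u hu.le
  have hmapd : DifferentiableOn ℂ (fun u : ℂ => z + u) (ball 0 (R / 4)) := by fun_prop
  have hQc : ContinuousOn (fun u : ℂ => Q (z + u) - Q z) (closedBall 0 (R / 4)) := by
    refine ContinuousOn.sub ?_ continuousOn_const
    refine hQd.continuousOn.comp (by fun_prop) ?_
    intro u hu
    rw [mem_closedBall_zero_iff] at hu
    exact hball u hu
  obtain ⟨B, hB⟩ := (isCompact_closedBall (0 : ℂ) (R / 4)).exists_bound_of_continuousOn hQc
  obtain ⟨S, hS⟩ : ∃ S : ℝ, S = Real.exp (|χ₀.im| + 1) := ⟨_, rfl⟩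
  have hsin : ∀ u : ℂ, ‖u‖ ≤ R / 4 → ‖2 * Complex.sin (z + u + χ₀)‖ ≤ 2 * S := by
    intro u hu
    rw [norm_mul, Complex.norm_ofNat, hS]
    refine mul_le_mul_of_nonneg_left ?_ (by norm_num)
    refine (Pool.Agent.W85.HT.norm_sin_le _).trans (Real.exp_le_exp.2 ?_)
    rw [Complex.add_im]
    have h1 := (hball u hu).2
    have h2 := abs_add_le (z + u).im χ₀.im
    linarith
  obtain ⟨C₀, hC₀⟩ := hGX.ux 0
  have hU : ∀ᶠ N : ℕ in atTop, ∀ w ∈ Rc R R,
      ‖Complex.exp (-(N * G w)) * X N (w + χ₀)‖ ≤ C₀ := by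
    filter_upwards [hC₀] with N hN w hw
    have := hN w hw
    simpa using this
  have hC0 : 0 ≤ C₀ := by
    obtain ⟨N, hN⟩ := hU.exists
    exact (norm_nonneg _).trans (hN z hzR)
  -- the Laplace integral
  obtain ⟨δ', hδ', hδδ, hLap⟩ := Pool.Agent.W762.AX.lx Pool.Agent.W303.AX.uxbd (R / 4) B c
    (by positivity) hc
  have key := hLap δ' hδ' le_rfl Unit Set.univ (fun _ u => Q (z + u) - Q z)
    (fun N p => 2 * Complex.sin (z + p.2 + χ₀) *
      (Complex.exp (-(N * G (z + p.2))) * X N (z + p.2 + χ₀)))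
    (fun k p => 2 * Complex.sin (z + p.2 + χ₀) * A k (z + p.2))
    (by
      intro _ _
      have hd1 : deriv (fun u : ℂ => Q (z + u) - Q z) = fun u => deriv Q (z + u) := by
        funext u
        rw [deriv_sub_const, deriv_comp_const_add]
      refine ⟨(hQd.comp hmapd hmaps).sub_const _, ?_, ?_, ?_, ?_⟩
      · intro u hu
        exact hB u (ball_subset_closedBall hu)
      · simp
      · rw [hd1]
        simp only [add_zero]
        exact hderQ
      · rw [hd1]
        have : deriv (fun u => deriv Q (z + u)) 0 = deriv (deriv Q) (z + 0) :=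
          deriv_comp_const_add _ _ _
        rw [this, add_zero, hderQ2]
        exact hneg2 z hzR)
    (by
      refine Eventually.of_forall fun N _ _ => ?_
      refine ContinuousOn.mul (by fun_prop) (ContinuousOn.mul ?_ ?_)
      · exact ((continuousOn_const.mul (hG.continuousOn.comp hmapd.continuousOn hmaps)).neg).cexp
      · exact ((hX N).continuous.comp (by fun_prop : Continuous fun u : ℂ =>
          z + u + χ₀)).continuousOn)
    (by
      intro k _ _
      exact DifferentiableOn.mul (by fun_prop) ((hGX.an k).comp hmapd hmaps))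
    (by
      intro K
      obtain ⟨C, hC⟩ := hGX.ux K
      refine ⟨2 * S * C, ?_⟩
      filter_upwards [hC] with N hN p hp
      have hp' : ‖p.2‖ ≤ R / 4 := by
        have := hp.2
        rw [mem_ball_zero_iff] at this
        exact this.le
      have h1 := hN (z + p.2) (hball _ hp')
      have e : 2 * Complex.sin (z + p.2 + χ₀) *
          (Complex.exp (-(N * G (z + p.2))) * X N (z + p.2 + χ₀)) -
          ∑ k ∈ Finset.range K, 2 * Complex.sin (z + p.2 + χ₀) * A k (z + p.2) / (N : ℂ) ^ k =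
          2 * Complex.sin (z + p.2 + χ₀) *
          ((Complex.exp (-(N * G (z + p.2))) * X N (z + p.2 + χ₀)) -
          ∑ k ∈ Finset.range K, A k (z + p.2) / (N : ℂ) ^ k) := by
        rw [mul_sub, Finset.mul_sum]
        congr 1
        exact Finset.sum_congr rfl fun k _ => mul_div_assoc _ _ _
      rw [e, norm_mul, mul_div_assoc]
      exact mul_le_mul (hsin _ hp') h1 (norm_nonneg _) (by rw [hS]; positivity))
  obtain ⟨Bc, hBc, hB0⟩ := key
  have hB0' : Bc 0 () ≠ 0 := by
    rw [hB0 () (Set.mem_univ _)]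
    refine mul_ne_zero (mul_ne_zero ?_ ?_) ?_
    · rw [add_zero]
      exact mul_ne_zero two_ne_zero hPz
    · rw [add_zero]
      exact hGX.nz z hzR
    · rw [Ne, Complex.cpow_eq_zero_iff]
      rintro ⟨h1, -⟩
      rw [div_eq_zero_iff] at h1
      rcases h1 with h1 | h1
      · have : (2 * π : ℂ) ≠ 0 := by exact_mod_cast (by positivity : (2 * π : ℝ) ≠ 0)
        exact this h1
      · have hd1 : deriv (fun u : ℂ => Q (z + u) - Q z) = fun u => deriv Q (z + u) := by
          funext u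
          rw [deriv_sub_const, deriv_comp_const_add]
        have h2 : deriv (fun u => deriv Q (z + u)) 0 = deriv (deriv Q) (z + 0) :=
          deriv_comp_const_add _ _ _
        rw [hd1, h2, add_zero, hderQ2, neg_eq_zero] at h1
        have h3 := hneg2 z hzR
        rw [h1, Complex.zero_re] at h3
        linarith
  obtain ⟨κ', hκ', hloc⟩ := locz (m := m) (C₀ := C₀) (η := δ') hR hR1 hRy haR hc hκ hX hXe hC0 hU hz
    hline hfar hside hδ' (by linarith [hz.1])
  obtain ⟨W, hW⟩ : ∃ W : ℕ → ℂ, W = fun N =>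
      2 * (∫ x in (-RN N)..(RN N), wE N m (x + (χ₀ + z).im * Complex.I) *
          X N (x + (χ₀ + z).im * Complex.I) * kN N (x + (χ₀ + z).im * Complex.I)) -
        2 * Complex.I * (∫ y in (-(χ₀ + z).im)..(χ₀ + z).im, wE N m (RN N + y * Complex.I) *
          X N (RN N + y * Complex.I) * kN N (RN N + y * Complex.I)) := ⟨_, rfl⟩
  -- expansion of `W`
  have hWx : UX (fun N (_ : Unit) => (Real.sqrt N : ℂ) * Complex.exp (-(N * Q z)) * W N) Bc
      Set.univ := by
    refine Pool.Agent.W21.AX.ux_small hBc fun K => ⟨1, ?_⟩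
    filter_upwards [hloc, Pool.Agent.W21.AX.exp_small κ' hκ' 1 K, eventually_ge_atTop 1]
      with N h1 h2 h3 _ _
    have hN0 : (1 : ℝ) ≤ N := by exact_mod_cast h3
    have hN1 : (0 : ℝ) ≤ N := by linarith
    have e1 : (∫ x in (-δ')..δ', Complex.exp (N * (Q (z + x) - Q z)) *
        (2 * Complex.sin (z + x + χ₀) * (Complex.exp (-(N * G (z + x))) * X N (z + x + χ₀)))) =
        Complex.exp (-(N * Q z)) *
          ∫ x in (-δ')..δ', 2 * Complex.sin (z + x + χ₀) * eI m X N (z + x + χ₀) := by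
      rw [← intervalIntegral.integral_const_mul]
      apply intervalIntegral.integral_congr
      intro x _
      show Complex.exp (N * (Q (z + x) - Q z)) *
        (2 * Complex.sin (z + x + χ₀) * (Complex.exp (-(N * G (z + x))) * X N (z + x + χ₀))) =
        Complex.exp (-(N * Q z)) * (2 * Complex.sin (z + x + χ₀) * eI m X N (z + x + χ₀))
      rw [eI_eqz m χ₀ X G, hQ]
      have e2 : Complex.exp (N * (Qz m χ₀ G (z + x) - Qz m χ₀ G z)) =
          Complex.exp (-(N * Qz m χ₀ G z)) * Complex.exp (N * Qz m χ₀ G (z + x)) := by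
        rw [← Complex.exp_add]
        congr 1
        ring
      rw [e2]
      ring
    rw [e1, mul_assoc, ← mul_sub, ← mul_sub, norm_mul, norm_mul, Complex.norm_exp, hW,
      Complex.norm_real, Real.norm_of_nonneg (Real.sqrt_nonneg _)]
    have e3 : (-((N : ℂ) * Q z)).re = -(N * V) := by
      rw [Complex.neg_re, ← hQz]
      simp
    rw [e3]
    have h4 : Real.sqrt N ≤ N := by
      rw [Real.sqrt_le_left hN1]
      nlinarith
    calc Real.sqrt N * (Real.exp (-(N * V)) * _) ≤
        N * (Real.exp (-(N * V)) * Real.exp (N * (V - κ'))) := by gcongr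
      _ = (N : ℝ) ^ 1 * Real.exp (-(κ' * N)) := by
          rw [← Real.exp_add, pow_one]
          congr 2
          ring
      _ ≤ _ := h2
  refine ⟨fun k => -(Complex.I / (2 * π)) * Bc k (), ?_, ?_⟩
  · refine mul_ne_zero (neg_ne_zero.2 (div_ne_zero Complex.I_ne_zero ?_)) hB0'
    exact_mod_cast (by positivity : (2 * π : ℝ) ≠ 0)
  have hQz' : Complex.I * m * (χ₀ + z) ^ 2 / (2 * π) + Complex.I * (χ₀ + z) + G z = Q z := by
    rw [hQ]
    rfl
  rw [hQz']
  intro K
  obtain ⟨C, hC⟩ := hWx K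
  refine ⟨1 / (2 * π) * C, ?_⟩
  have hh0 : 0 < (χ₀ + z).im := by
    rw [Complex.add_im]
    linarith [hzim.1]
  filter_upwards [hC, eventually_ge_atTop 3] with N hN hN3
  have hN0 : (0 : ℝ) < N := by exact_mod_cast (by omega : 0 < N)
  have hb' := hN () (Set.mem_univ _)
  have hFd : Differentiable ℂ (fun χ => wE N m χ * X N χ) := (wE_diff N m).mul (hX N)
  have hFo : ∀ w, (fun χ => wE N m χ * X N χ) (-w) = -(fun χ => wE N m χ * X N χ) w := by
    intro w
    simp only
    rw [wE_odd, hXe, neg_mul]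
  have hs := sum_deriv hFd hFo (show 1 ≤ N by omega) (N / 3 - 1) hh0
  have h2 : Finset.Ioo (-((N / 3 : ℕ) : ℤ)) ((N / 3 : ℕ) : ℤ) =
      Finset.Icc (-((N / 3 - 1 : ℕ) : ℤ)) ((N / 3 - 1 : ℕ) : ℤ) := by
    ext p
    rw [Finset.mem_Ioo, Finset.mem_Icc]
    have h3 : 1 ≤ N / 3 := by omega
    omega
  have h3 : (2 * ((N / 3 - 1 : ℕ) : ℝ) + 1) * π / N = RN N := by
    unfold Pool.Agent.Y472.RN
    ring
  rw [h3] at hs
  have hs2 : (∑ p ∈ Finset.Ioo (-((N / 3 : ℕ) : ℤ)) ((N / 3 : ℕ) : ℤ),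
      deriv (fun χ => wE N m χ * X N χ) (2 * π * p / N)) =
      -(Complex.I / (2 * π)) * (N * (N * W N)) := by
    rw [h2, hs, hW]
    ring
  have hsq : ((Real.sqrt N : ℝ) : ℂ) * ((Real.sqrt N : ℝ) : ℂ) = N := by
    rw [← Complex.ofReal_mul, Real.mul_self_sqrt hN0.le, Complex.ofReal_natCast]
  have hsq0 : ((Real.sqrt N : ℝ) : ℂ) ≠ 0 := by
    exact_mod_cast (Real.sqrt_pos.2 hN0).ne'
  have hen := Complex.exp_ne_zero (N * Q z)
  have hee : Complex.exp (-(N * Q z)) = (Complex.exp (N * Q z))⁻¹ := Complex.exp_neg _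
  have hkey : (∑ p ∈ Finset.Ioo (-((N / 3 : ℕ) : ℤ)) ((N / 3 : ℕ) : ℤ),
      deriv (fun χ => wE N m χ * X N χ) (2 * π * p / N)) /
      (((Real.sqrt N) ^ 3 : ℝ) * Complex.exp (N * Q z)) =
      -(Complex.I / (2 * π)) * ((Real.sqrt N : ℂ) * Complex.exp (-(N * Q z)) * W N) := by
    rw [hs2, hee]
    have k1 : (((Real.sqrt N) ^ 3 : ℝ) : ℂ) = ((Real.sqrt N : ℝ) : ℂ) ^ 3 := by push_cast; rfl
    rw [k1]
    generalize Complex.exp (N * Q z) = E at *
    rw [div_eq_iff (mul_ne_zero (pow_ne_zero _ hsq0) hen)]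
    have k2 : E⁻¹ * E = 1 := inv_mul_cancel₀ hen
    generalize (Real.sqrt N : ℂ) = s at *
    have k3 : s * s * (s * s) = N * N := by rw [hsq]
    linear_combination (Complex.I / (2 * π) * W N) * k3 +
      (Complex.I / (2 * π) * W N * s ^ 4) * k2
  rw [hkey]
  have e3 : ∑ k ∈ Finset.range K, -(Complex.I / (2 * π)) * Bc k () / (N : ℂ) ^ k =
      -(Complex.I / (2 * π)) * ∑ k ∈ Finset.range K, Bc k () / (N : ℂ) ^ k := by
    rw [Finset.mul_sum]
    exact Finset.sum_congr rfl fun k _ => mul_div_assoc _ _ _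
  rw [e3, ← mul_sub, norm_mul]
  have e4 : ‖-(Complex.I / (2 * π))‖ = 1 / (2 * π) := by
    rw [norm_neg, norm_div, Complex.norm_I, norm_mul, Complex.norm_ofNat, Complex.norm_real,
      Real.norm_of_nonneg hpi.le]
  rw [e4, mul_div_assoc]
  exact mul_le_mul_of_nonneg_left hb' (by positivity)

end Pool.Agent.Y472.CJ
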