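import Pool.Agent.Y472.CJ.ElqA

/-!
# ELQ: elimination with expansions, absolute constants and a parameter

Adapted from `Pool.Agent.Y784.PH.ELX`.
-/

set_option autoImplicit false

namespace Pool.Agent.Y472.CJ

open Finset Filter Topology Metric
open Pool.Agent.W711.HT Pool.Agent.Y472 Pool.Agent.Y232.CB Pool.Agent.Y784.PH
open Pool.Agent.Y481 (itN itG Sep LN LN_lin itG_sep)
open Pool.Agent.W719.AX (UX ig S_LX S_LOCX S_UXMUL)
open Pool.Agent.Y482.Ph (EXL S_LOCN S_ELX)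
open Pool.Agent.W293.HT (GH isOpen_Rc Rc_mono mem_Rc_of_norm crit_props)
open scoped Real

variable {E : Type} [MetricSpace E] [CompactSpace E] {L : ℕ} {R c B p₀ B' C : ℝ}
  {S : E → (ℕ → ℂ) → ℂ} {D : E → ℕ → (ℕ → ℂ) → ℂ} {a : ℕ → ℤ} {zz : E → ℕ → (ℕ → ℂ) → ℕ → ℂ}

/-- the step, without the uniform lower bound -/
theorem step0E [Nonempty E] (hLN : S_LOCN) (hQ : HQ E L R c B p₀ B' C S D a zz)
    (hC : 0 < C) {j : ℕ} (hj : j < L) (haj : MM R c B C ≤ |(a j : ℝ)|) (ha0 : a j ≠ 0)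
    {F : ℕ → E → (ℕ → ℂ) → ℂ} (hF : ∀ᶠ N : ℕ in atTop, ∀ e, Sep L (F N e))
    (hEX : ∀ r : ℝ, 0 < r → r < R / 2 → EXQ E L r F fun e ψ => Uj (S e) a j (zz e j ψ))
    {r : ℝ} (hr : 0 < r) (hr2 : r < R / 2) :
    ∃ A : ℕ → E × (ℕ → ℂ) → ℂ,
      UX (fun N p => Complex.exp (-(N * Uj (S p.1) a (j + 1) (zz p.1 (j + 1) p.2))) *
      ((Real.sqrt N : ℂ) * (-1) ^ N * LN (R / 8) (a j) N fun w =>
        F N p.1 (Function.update p.2 j w)))
      A (Set.univ ×ˢ Bx L r) ∧ ∀ p ∈ (Set.univ : Set E) ×ˢ Bx L r, A 0 p ≠ 0 := by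
  obtain ⟨e₀⟩ := ‹Nonempty E›
  have hR := (hQ.pa e₀).pot.hR.1
  have hR1 := (hQ.pa e₀).pot.hR.2
  have hc := (hQ.pa e₀).pot.hc
  -- the radius of the box of the hypothesis
  obtain ⟨r', hr'1, hr'2, hr'3⟩ : ∃ r' : ℝ, r < r' ∧ R / 4 ≤ r' ∧ r' < R / 2 := by
    refine ⟨max ((r + R / 2) / 2) (R / 4), ?_, le_max_right _ _, ?_⟩
    · exact lt_of_lt_of_le (by linarith) (le_max_left _ _)
    · exact max_lt (by linarith) (by linarith)
  obtain ⟨r'', hr''1, hr''2⟩ : ∃ r'' : ℝ, r < r'' ∧ r'' < r' :=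
    ⟨(r + r') / 2, by linarith, by linarith⟩
  obtain ⟨A, c₁, hc₁, hux, hA0, hAd⟩ := hEX r' (by linarith) hr'3
  have hR2sub : ∀ {ρ : ℝ}, ρ ≤ R / 2 → Bx L ρ ⊆ Bx L (R / 2) := fun h => Bx_mono h
  have hRc : Rc (2 * (R / 8)) (2 * (R / 8)) = Rc (R / 4) (R / 4) := by
    have : 2 * (R / 8) = R / 4 := by ring
    rw [this]
  have hRcm : Rc (R / 4) (R / 4) ⊆ Rc (R / 2) (R / 2) := Rc_mono (by linarith) (by linarith)
  -- the functions `Y`
  classical
  obtain ⟨N₀, hN₀⟩ := eventually_atTop.1 hF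
  set F' : ℕ → E → (ℕ → ℂ) → ℂ := fun N => if N₀ ≤ N then F N else fun _ _ => 1 with hF'
  have hF'S : ∀ N e, Sep L (F' N e) := by
    intro N e
    rw [hF']
    dsimp only
    split_ifs with h
    · exact hN₀ N h e
    · exact Sep.const 1
  have hF'e : ∀ᶠ N : ℕ in atTop, F' N = F N := by
    filter_upwards [eventually_ge_atTop N₀] with N hN
    rw [hF']
    simp only [hN, if_true]
  have hux' : UX (fun N p => Complex.exp (-(N * Uj (S p.1) a j (zz p.1 j p.2))) * F' N p.1 p.2) A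
      (Set.univ ×ˢ Bx L r') := by
    intro K
    obtain ⟨C', h⟩ := hux K
    refine ⟨C', ?_⟩
    filter_upwards [h, hF'e] with N h1 h2
    rw [h2]
    exact h1
  have hMW := mw_of_ux hc₁ hux' hA0
  -- the set of parameters
  have hKb : ∀ p ∈ Kb L r, ex L p ∈ Bx L (R / 2) := fun p hp =>
    hR2sub (by linarith) (ex_mem (Kb_sub hr''1 hp))
  have hKr : ∀ p ∈ Kb L r, ex L p ∈ Bx L r'' := fun p hp => ex_mem (Kb_sub hr''1 hp)
  have hcontG : ContinuousOn (fun x : ℂ × (E × (Fin L → ℂ)) =>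
      GG (S x.2.1) a (zz x.2.1) j (ex L x.2.2) x.1)
      (Rc (2 * (R / 8)) (2 * (R / 8)) ×ˢ (Set.univ ×ˢ Kb L r)) := by
    have h1 := U_contE hQ hj.le
    have h2 : Continuous fun x : ℂ × (E × (Fin L → ℂ)) =>
        ((x.2.1, Function.update x.2.2 ⟨j, hj⟩ x.1) : E × (Fin L → ℂ)) :=
      (by fun_prop : Continuous fun x : ℂ × (E × (Fin L → ℂ)) => x.2.1).prodMk
        ((by fun_prop : Continuous fun x : ℂ × (E × (Fin L → ℂ)) => x.2.2).update _ continuous_fst)
    have h3 := h1.comp (s := Rc (2 * (R / 8)) (2 * (R / 8)) ×ˢ (Set.univ ×ˢ Kb L r))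
      h2.continuousOn (by
      intro x hx
      refine ⟨Set.mem_univ _, ?_⟩
      intro i
      by_cases h : i = ⟨j, hj⟩
      · rw [h]
        simp only [Function.update_self]
        rw [hRc] at hx
        exact hRcm hx.1
      · simp only [Function.update_of_ne h]
        exact Rc_mono (by linarith) (by linarith) (Kb_sub hr''1 hx.2.2 i))
    refine h3.congr fun x _ => ?_
    simp only [Function.comp, GG]
    rw [ex_upd hj]
  have hcontz : ContinuousOn (fun p : E × (Fin L → ℂ) => zz p.1 (j + 1) (ex L p.2) j)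
      (Set.univ ×ˢ Kb L r) :=
    ((continuous_apply (⟨j, hj⟩ : Fin L)).comp_continuousOn (zz_contE hQ hj)).mono
      fun p hp => ⟨Set.mem_univ _, fun i =>
        Rc_mono (by linarith) (by linarith) (Kb_sub hr''1 hp.2 i)⟩
  have hsp : ∀ p ∈ (Set.univ : Set E) ×ˢ Kb L r, _ := fun p hp =>
    step_propsA (hQ.pa p.1) (hQ.cr p.1) hC hj haj (hKb p.2 hp.2)
  have hloc := hLN (R / 8) (R / 8) C (a j) (E × (Fin L → ℂ)) (Set.univ ×ˢ Kb L r)
    (fun N w p => F' N p.1 (Function.update (ex L p.2) j w))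
    (fun w p => GG (S p.1) a (zz p.1) j (ex L p.2) w)
    (fun p => zz p.1 (j + 1) (ex L p.2) j) (by positivity) (by linarith) (by positivity) ha0 hC
    (isCompact_univ.prod (Kb_compact L r)) (fun N p _ => (hF'S N p.1).diff (ex L p.2) j)
    (fun p hp => by rw [hRc]; exact (GG_diff (hQ.cr p.1) hj (hKb p.2 hp.2)).mono hRcm)
    hcontG hcontz
    (by
      intro ε hε
      filter_upwards [hMW ε hε] with N h1 w hw p hp
      rw [hRc] at hw
      exact h1 (p.1, Function.update (ex L p.2) j w)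
        ⟨Set.mem_univ _, upd_Bx (hKr p.2 hp.2) j hw hr''2.le hr'2⟩)
    (fun p hp => ⟨(hsp p hp).1, (hsp p hp).2.1⟩)
  -- the expansion
  have hBs : ∀ e, ∀ ψ ∈ Bx L (R / 2), ‖Uj (S e) a j (zz e j ψ)‖ ≤
      B' + ∑ i ∈ range j, C / |(a i : ℝ)| := fun e => U_bdA (hQ.pa e) (hQ.cr e) hj.le
  obtain ⟨Bs, hBsd⟩ : ∃ Bs : ℝ, Bs = B' + ∑ i ∈ range j, C / |(a i : ℝ)| := ⟨_, rfl⟩
  rw [← hBsd] at hBs
  have hupd : ∀ p ∈ Bx L r, ∀ w ∈ Rc (R / 4) (R / 4), Function.update p j w ∈ Bx L r' :=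
    fun p hp w hw => upd_Bx hp j hw (by linarith) hr'2
  have hr2s : Bx L r ⊆ Bx L (R / 2) := hR2sub hr2.le
  obtain ⟨A', hA', hA'0⟩ := f_LOCX (R / 4) (R / 4) (R / 16) (c / 2) 0 (a j) (E × (ℕ → ℂ))
    (Set.univ ×ˢ Bx L r)
    (fun _ _ => 1) (fun _ => 0) (fun k _ => if k = 0 then 1 else 0)
    (fun N w p => Complex.exp (-(N * GG (S p.1) a (zz p.1) j p.2 w)) *
      F' N p.1 (Function.update p.2 j w))
    (fun k x => A k (x.2.1, Function.update x.2.2 j x.1))
    (fun w p => GG (S p.1) a (zz p.1) j p.2 w)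
    (fun p => zz p.1 (j + 1) p.2 j) (fun p => Uj (S p.1) a (j + 1) (zz p.1 (j + 1) p.2))
    (fun N p => LN (R / 8) (a j) N fun w => F' N p.1 (Function.update p.2 j w))
    (by positivity) (by positivity) (one_GX _) (fun N => differentiable_const _)
    (differentiableOn_const _)
    (by
      intro p hp u hu
      rw [mem_ball_zero_iff] at hu
      have h1 := (step_propsA (hQ.pa p.1) (hQ.cr p.1) hC hj haj (hr2s hp.2)).2.2.1
      have h2 := norm_add_le (zz p.1 (j + 1) p.2 j) u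
      exact mem_Rc_of_norm le_rfl (by linarith))
    ⟨max 0 Bs, fun w hw => ⟨by rw [norm_zero]; exact le_max_left _ _, fun p hp =>
      (hBs p.1 _ (upd_mem (hr2s hp.2) j (hRcm hw))).trans (le_max_right _ _)⟩⟩
    (by
      intro N p hp
      have h1 : ContinuousOn (fun w => GG (S p.1) a (zz p.1) j p.2 w) (Rc (R / 4) (R / 4)) :=
        ((GG_diff (hQ.cr p.1) hj (hr2s hp.2)).mono hRcm).continuousOn
      have h2 : ContinuousOn (fun w => F' N p.1 (Function.update p.2 j w)) (Rc (R / 4) (R / 4)) :=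
        ((hF'S N p.1).diff p.2 j).continuous.continuousOn
      exact (Complex.continuous_exp.comp_continuousOn (continuousOn_const.mul h1).neg).mul h2)
    (fun p hp => (GG_diff (hQ.cr p.1) hj (hr2s hp.2)).mono hRcm)
    (Pool.Agent.W21.AX.ux_comp hux'
      (fun x : ℂ × (E × (ℕ → ℂ)) => (x.2.1, Function.update x.2.2 j x.1)) _
      fun x hx => ⟨Set.mem_univ _, hupd x.2.2 hx.2.2 x.1 hx.1⟩)
    (by
      intro n p hp w hw
      have h1 := hAd n p.1 (Function.update p.2 j w) (hupd p.2 hp.2 w hw) j hj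
      simp only [Function.update_idem] at h1
      exact (h1.mono (Rc_mono hr'2 hr'2)) w hw)
    (by
      intro x hx h0
      have h1 := hA0 (x.2.1, Function.update x.2.2 j x.1)
        ⟨Set.mem_univ _, hupd x.2.2 hx.2.2 x.1 hx.1⟩
      rw [h0, norm_zero] at h1
      linarith)
    (by
      intro p hp
      have h1 := step_propsA (hQ.pa p.1) (hQ.cr p.1) hC hj haj (hr2s hp.2)
      have e0 : (fun w => 0 + GG (S p.1) a (zz p.1) j p.2 w) = GG (S p.1) a (zz p.1) j p.2 := by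
        funext w
        rw [zero_add]
      rw [e0]
      exact ⟨h1.2.1.sn, h1.2.2.2.2, h1.2.1.crit, h1.2.2.2.1⟩)
    (by
      intro δ' hδ'0 hδ'
      obtain ⟨κ', hκ', h⟩ := hloc δ' hδ'0 (fun p hp => by
        have h1 := (hsp p hp).2.2.1
        have h2 := Complex.abs_re_le_norm (zz p.1 (j + 1) (ex L p.2) j)
        linarith)
      refine ⟨κ', hκ', ?_⟩
      filter_upwards [h] with N h1 p hp
      have h2 := h1 (p.1, rs L p.2) ⟨Set.mem_univ _, rs_Kb hp.2⟩
      have e1 : ∀ i < L, ex L (rs L p.2) i = p.2 i := fun i hi => ex_rs p.2 hi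
      have e2 : ∀ w : ℂ, ∀ i < L, Function.update (ex L (rs L p.2)) j w i =
          Function.update p.2 j w i := by
        intro w i hi
        by_cases h : i = j
        · subst h
          rw [Function.update_self, Function.update_self]
        · rw [Function.update_of_ne h, Function.update_of_ne h, e1 i hi]
      have e3 : (fun w => F' N p.1 (Function.update (ex L (rs L p.2)) j w)) =
          fun w => F' N p.1 (Function.update p.2 j w) := by
        funext w
        exact sep_dep (hF'S N p.1) (e2 w)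
      have hrs : ex L (rs L p.2) ∈ Bx L (R / 2) := fun i hi => by
        rw [e1 i hi]
        exact hr2s hp.2 i hi
      have hP := (hQ.pa p.1).pot
      have hK := hQ.cr p.1
      have e4 : zz p.1 (j + 1) (ex L (rs L p.2)) j = zz p.1 (j + 1) p.2 j :=
        zz_ext hP hK hj hrs e1 j hj
      have e5 : qq (a j) (fun w => GG (S p.1) a (zz p.1) j (ex L (rs L p.2)) w)
          (zz p.1 (j + 1) (ex L (rs L p.2)) j) =
          Uj (S p.1) a (j + 1) (zz p.1 (j + 1) p.2) := by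
        have h3 := (step_propsA (hQ.pa p.1) hK hC hj haj hrs).2.2.2.2
        refine Eq.trans h3.symm ?_
        exact Uj_ext hj hP (zz_ext hP hK hj hrs e1)
      simp only at h2
      rw [e5] at h2
      have e6 : ∀ w : ℂ, F' N p.1 (Function.update (ex L (rs L p.2)) j w) =
          F' N p.1 (Function.update p.2 j w) := fun w => congrFun e3 w
      simp only [e6, e4] at h2
      refine le_trans (le_of_eq ?_) h2
      congr 2
      congr 1
      funext x
      have e7 : Complex.exp (N * GG (S p.1) a (zz p.1) j p.2 (zz p.1 (j + 1) p.2 j + x)) *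
          Complex.exp (-(N * GG (S p.1) a (zz p.1) j p.2 (zz p.1 (j + 1) p.2 j + x))) = 1 := by
        rw [← Complex.exp_add, add_neg_cancel, Complex.exp_zero]
      linear_combination (ig (a j) N (zz p.1 (j + 1) p.2 j + x) *
        F' N p.1 (Function.update p.2 j (zz p.1 (j + 1) p.2 j + x))) * e7)
  refine ⟨A', ?_, hA'0⟩
  intro K
  obtain ⟨C', h⟩ := hA' K
  refine ⟨C', ?_⟩
  filter_upwards [h, hF'e] with N h1 h2 p hp
  have h3 := h1 p hp
  rw [h2] at h3
  refine le_trans (le_of_eq ?_) h3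
  congr 2
  rw [mul_zero, pow_zero, zero_add, mul_one]
  ring

/-- the step -/
theorem stepE [Nonempty E] (hLN : S_LOCN) (hQ : HQ E L R c B p₀ B' C S D a zz)
    (hC : 0 < C) {j : ℕ} (hj : j < L) (haj : MM R c B C ≤ |(a j : ℝ)|) (ha0 : a j ≠ 0)
    {F : ℕ → E → (ℕ → ℂ) → ℂ} (hF : ∀ᶠ N : ℕ in atTop, ∀ e, Sep L (F N e))
    (hF2 : ∀ᶠ N : ℕ in atTop, ∀ e, Sep L (fun ψ => LN (R / 8) (a j) N fun w =>
      F N e (Function.update ψ j w)))
    (hF3 : ∀ᶠ N : ℕ in atTop, Continuous fun x : E × (Fin L → ℂ) =>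
      LN (R / 8) (a j) N fun w => F N x.1 (Function.update (ex L x.2) j w))
    (hEX : ∀ r : ℝ, 0 < r → r < R / 2 → EXQ E L r F fun e ψ => Uj (S e) a j (zz e j ψ))
    {r : ℝ} (hr : 0 < r) (hr2 : r < R / 2) :
    EXQ E L r (fun N e ψ => (Real.sqrt N : ℂ) * (-1) ^ N *
      LN (R / 8) (a j) N fun w => F N e (Function.update ψ j w))
      (fun e ψ => Uj (S e) a (j + 1) (zz e (j + 1) ψ)) := by
  obtain ⟨r', hr'1, hr'2⟩ : ∃ r' : ℝ, r < r' ∧ r' < R / 2 :=
    ⟨(r + R / 2) / 2, by linarith, by linarith⟩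
  obtain ⟨A, hA, hA0⟩ := step0E hLN hQ hC hj haj ha0 hF hEX (r := r') (by linarith) hr'2
  have hsub : Bx L r ⊆ Bx L (R / 2) := Bx_mono hr2.le
  have hA1 := Pool.Agent.W21.AX.ux_comp hA (fun x : E × (Fin L → ℂ) => (x.1, ex L x.2))
    (Set.univ ×ˢ Kb L r) fun x hx => ⟨Set.mem_univ _, ex_mem (Kb_sub hr'1 hx.2)⟩
  obtain ⟨c₁, hc₁, hlb⟩ := lb_of_ux (isCompact_univ.prod (Kb_compact L r)) (by
    filter_upwards [hF3] with N h1
    have h2 : ContinuousOn (fun x : E × (Fin L → ℂ) =>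
        Uj (S x.1) a (j + 1) (zz x.1 (j + 1) (ex L x.2))) (Set.univ ×ˢ Kb L r) :=
      (U_contE hQ hj).mono (Set.prod_mono_right (Kb_sub hr2))
    exact (Complex.continuous_exp.comp_continuousOn (continuousOn_const.mul h2).neg).mul
      (continuousOn_const.mul h1.continuousOn)) hA1
      (fun x hx => hA0 _ ⟨Set.mem_univ _, ex_mem (Kb_sub hr'1 hx.2)⟩)
  have hrm : Bx L r ⊆ Bx L r' := Bx_mono hr'1.le
  have hgood : ∀ p ∈ (Set.univ : Set E) ×ˢ Bx L r, c₁ ≤ ‖A 0 p‖ := by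
    rintro ⟨e, ψ⟩ ⟨_, hψ⟩
    have hP := (hQ.pa e).pot
    have hK := hQ.cr e
    have h1 := hlb (e, rs L ψ) ⟨Set.mem_univ _, rs_Kb hψ⟩
    have e1 : ∀ i < L, ex L (rs L ψ) i = ψ i := fun i hi => ex_rs ψ hi
    have hm : ex L (rs L ψ) ∈ Bx L r := fun i hi => by
      rw [e1 i hi]
      exact hψ i hi
    have t1 := ux_tendsto hA (p := (e, ψ)) ⟨Set.mem_univ _, hrm hψ⟩
    have t2 := ux_tendsto hA (p := (e, ex L (rs L ψ))) ⟨Set.mem_univ _, hrm hm⟩
    have e2 : A 0 (e, ex L (rs L ψ)) = A 0 (e, ψ) := by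
      refine tendsto_nhds_unique (t2.congr' ?_) t1
      filter_upwards [hF2] with N h2
      rw [sep_dep (h2 e) e1, Uj_ext hj hP (zz_ext hP hK hj (hsub hm) e1)]
    rw [← e2]
    exact h1
  refine ⟨A, c₁, hc₁, fun K => ?_, hgood, ?_⟩
  · obtain ⟨C', h⟩ := hA K
    exact ⟨C', h.mono fun N h1 p hp => h1 p ⟨hp.1, hrm hp.2⟩⟩
  · intro k e ψ hψ i hi
    have hK := hQ.cr e
    have hupd : ∀ w ∈ Rc r r, Function.update ψ i w ∈ Bx L r := fun w hw => upd_mem hψ i hw
    refine Pool.Agent.W303.AX.uxan _ (fun k w => A k (e, Function.update ψ i w)) (Rc r r)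
      (isOpen_Rc _ _) ?_ (Pool.Agent.W21.AX.ux_comp hA (fun w : ℂ => (e, Function.update ψ i w))
        (Rc r r) fun w hw => ⟨Set.mem_univ _, hrm (hupd w hw)⟩) k
    filter_upwards [hF2] with N h1
    have h2 : DifferentiableOn ℂ (fun w : ℂ => Uj (S e) a (j + 1)
        (zz e (j + 1) (Function.update ψ i w))) (Rc r r) := by
      by_cases h : j + 1 ≤ i
      · intro w hw
        have h3 := hK.der (j + 1) hj _ (hsub (hupd w hw)) i h hi
        simp only [Function.update_idem, Function.update_self] at h3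
        exact h3.differentiableAt.differentiableWithinAt
      · refine (differentiableOn_const (Uj (S e) a (j + 1) (zz e (j + 1) ψ))).congr fun w hw => ?_
        rw [hK.dep (j + 1) hj _ (hsub (hupd w hw)) ψ (hsub hψ) fun l hl => ?_]
        rw [Function.update_of_ne (by omega)]
    have h4 : DifferentiableOn ℂ (fun w : ℂ => LN (R / 8) (a j) N fun w' =>
        F N e (Function.update (Function.update ψ i w) j w')) (Rc r r) :=
      ((h1 e).diff ψ i).differentiableOn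
    exact (h2.const_mul (N : ℂ)).neg.cexp.mul (h4.const_mul ((Real.sqrt N : ℂ) * (-1) ^ N))

/-- ELQ -/
theorem elq : S_ELQ := by
  intro hLN R c B p₀ C hC
  by_cases hcond : 0 < R ∧ 0 < c ∧ 0 < B
  swap
  · refine ⟨1, one_pos, fun E _ _ L B' S D hP hcS hcD a ha zz hK f hf hfc hlim j hj r hr hr2 => ?_⟩
    have hE : IsEmpty E := ⟨fun e =>
      hcond ⟨(hP e).pot.hR.1, (hP e).pot.hc, (hP e).hB⟩⟩
    refine ⟨fun _ _ => 0, 1, one_pos, fun K => ⟨0, Eventually.of_forall fun N p _ =>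
      hE.elim p.1⟩, fun p _ => hE.elim p.1, fun k e => hE.elim e⟩
  obtain ⟨hR, hc, hB⟩ := hcond
  have hpi := Real.pi_pos
  have hC11 : 1 ≤ max 1 (B / (R / 8)) := le_max_left _ _
  have hM0 : 0 < MM R c B C := by
    unfold MM
    positivity
  refine ⟨MM R c B C, hM0, fun E _ _ L B' S D hP hcS hcD a ha zz hK f hf hfc hlim => ?_⟩
  rcases isEmpty_or_nonempty E with hE | hE
  · intro j hj r hr hr2
    refine ⟨fun _ _ => 0, 1, one_pos, fun K => ⟨0, Eventually.of_forall fun N p _ =>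
      hE.elim p.1⟩, fun p _ => hE.elim p.1, fun k e => hE.elim e⟩
  have hQ : HQ E L R c B p₀ B' C S D a zz := ⟨hP, hcS, hcD, hK⟩
  intro j
  induction j with
  | zero =>
    intro _ r hr hr2
    obtain ⟨A, c₁, hc₁, hux, hA0, hAd⟩ := hlim r hr hr2
    refine ⟨A, c₁, hc₁, fun K => ?_, hA0, hAd⟩
    obtain ⟨C', h⟩ := hux K
    refine ⟨C', h.mono fun N h1 p hp => ?_⟩
    have h2 := h1 p hp
    have e : Uj (S p.1) a 0 (zz p.1 0 p.2) = S p.1 p.2 := by
      rw [zz_zero (hK p.1) (Bx_mono hr2.le hp.2)]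
      simp [Uj]
    have e2 : itN (fun _ => R / 8) a N 0 (f N p.1) p.2 = f N p.1 p.2 := rfl
    beta_reduce at h2 ⊢
    rw [e, e2, pow_zero, mul_zero, pow_zero, one_mul, one_mul]
    exact h2
  | succ j ih =>
    intro hj r hr hr2
    have hjL : j < L := hj
    have haj := ha j hjL
    have ha0 : a j ≠ 0 := by
      intro h
      rw [h, Int.cast_zero, abs_zero] at haj
      linarith
    have hS : ∀ᶠ N : ℕ in atTop, ∀ e, Sep L (itN (fun _ => R / 8) a N j (f N e)) := by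
      filter_upwards [hf, eventually_ge_atTop 1] with N h0 hN e
      exact itG_sep (fun i => LN_lin (R / 8) (a i) hN) (h0 e) hjL.le
    have hlin : ∀ (N : ℕ) (k : ℂ) (g : ℂ → ℂ), LN (R / 8) (a j) N (fun w => k * g w) =
        k * LN (R / 8) (a j) N g := by
      intro N k g
      unfold LN
      rw [← intervalIntegral.integral_const_mul]
      congr 1
      funext x
      ring
    have hmul : ∀ᶠ N : ℕ in atTop, ∀ e, Sep L (fun ψ => (Real.sqrt N : ℂ) ^ j * (-1) ^ (N * j) *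
        itN (fun _ => R / 8) a N j (f N e) ψ) := by
      filter_upwards [hS] with N h1 e
      exact (Sep.const _).mul (h1 e)
    have h := stepE hLN hQ hC hjL haj ha0 hmul (by
      filter_upwards [hmul, eventually_ge_atTop 1] with N h1 hN e
      exact (h1 e).int hjL (LN_lin _ _ hN)) (by
      filter_upwards [hfc, eventually_ge_atTop 1] with N h1 hN
      have h2 := itN_cont (r := fun _ => R / 8) (a := a) hN h1 hj
      have h3 : (fun x : E × (Fin L → ℂ) => LN (R / 8) (a j) N fun w =>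
          (Real.sqrt N : ℂ) ^ j * (-1) ^ (N * j) *
            itN (fun _ => R / 8) a N j (f N x.1) (Function.update (ex L x.2) j w)) =
          fun x => ((Real.sqrt N : ℂ) ^ j * (-1) ^ (N * j)) *
            itN (fun _ => R / 8) a N (j + 1) (f N x.1) (ex L x.2) := by
        funext x
        rw [hlin]
        rfl
      rw [h3]
      exact continuous_const.mul h2) (ih hjL.le) hr hr2
    obtain ⟨A, c₁, hc₁, hux, hA0, hAd⟩ := h
    refine ⟨A, c₁, hc₁, fun K => ?_, hA0, hAd⟩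
    obtain ⟨C', h⟩ := hux K
    refine ⟨C', h.mono fun N h1 p hp => ?_⟩
    have h2 := h1 p hp
    refine le_trans (le_of_eq ?_) h2
    congr 2
    beta_reduce
    rw [hlin]
    have e2 : itN (fun _ => R / 8) a N (j + 1) (f N p.1) p.2 = LN (R / 8) (a j) N fun w =>
      itN (fun _ => R / 8) a N j (f N p.1) (Function.update p.2 j w) := rfl
    rw [e2]
    have e3 : N * (j + 1) = N * j + N := by ring
    rw [e3, pow_add, pow_succ]
    ring

end Pool.Agent.Y472.CJ
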