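import Pool.Agent.Y472.J.Defs2
import Pool.Agent.Y784.PH.ELX
import Pool.Agent.Y472.H.Ela

/-!
# ELQ, part A: continuity of the critical configurations in the parameter

Adapted from `Pool.Agent.Y784.PH.{ELA, ELB}`.
-/

set_option autoImplicit false

namespace Pool.Agent.Y472.CJ

open Finset Filter Topology Metric
open Pool.Agent.W711.HT Pool.Agent.Y472 Pool.Agent.Y232.CB Pool.Agent.Y784.PH
open Pool.Agent.Y481 (itN itG Sep LN LN_lin itG_sep)
open Pool.Agent.W719.AX (UX ig)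
open Pool.Agent.W293.HT (GH isOpen_Rc Rc_mono mem_Rc_of_norm crit_props)
open scoped Real

/-- the hypotheses on the potential and its critical points -/
structure HQ (E : Type) [MetricSpace E] (L : ℕ) (R c B p₀ B' C : ℝ) (S : E → (ℕ → ℂ) → ℂ)
    (D : E → ℕ → (ℕ → ℂ) → ℂ) (a : ℕ → ℤ) (zz : E → ℕ → (ℕ → ℂ) → ℕ → ℂ) : Prop where
  pa : ∀ e, PotA L R c B p₀ B' (S e) (D e)
  cS : ContinuousOn (fun x : E × (Fin L → ℂ) => S x.1 (ex L x.2)) (Set.univ ×ˢ bx L R)
  cD : ∀ j < L, ContinuousOn (fun x : E × (Fin L → ℂ) => D x.1 j (ex L x.2))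
    (Set.univ ×ˢ bx L R)
  cr : ∀ e, Crt L R c B' (p₀ * L) C (S e) (D e) a (zz e)

variable {E : Type} [MetricSpace E] {L : ℕ} {R c B p₀ B' C : ℝ} {S : E → (ℕ → ℂ) → ℂ}
  {D : E → ℕ → (ℕ → ℂ) → ℂ} {a : ℕ → ℤ} {zz : E → ℕ → (ℕ → ℂ) → ℕ → ℂ}

theorem isOpen_E (ρ : ℝ) : IsOpen ((Set.univ : Set E) ×ˢ bx L ρ) := isOpen_univ.prod (isOpen_bx L ρ)

/-- continuity of the critical configurations -/
theorem zz_contE (hQ : HQ E L R c B p₀ B' C S D a zz) {j : ℕ} (hj : j ≤ L) :
    ContinuousOn (fun y : E × (Fin L → ℂ) => rs L (zz y.1 j (ex L y.2)))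
      (Set.univ ×ˢ bx L (R / 2)) := by
  intro y₀ hy₀
  have hx₀ : y₀.2 ∈ bx L (R / 2) := hy₀.2
  have hR := (hQ.pa y₀.1).pot.hR.1
  set K : Set (Fin L → ℂ) := Set.univ.pi fun i : Fin L =>
    if (i : ℕ) < j then closedBall (0 : ℂ) (C / |(a i : ℝ)|) else closedBall (y₀.2 i) 1 with hKd
  have hKc : IsCompact K := by
    refine isCompact_univ_pi fun i => ?_
    split_ifs
    · exact isCompact_closedBall _ _
    · exact isCompact_closedBall _ _
  refine hKc.tendsto_nhds_of_unique_mapClusterPt ?_ ?_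
  · have h1 : ∀ᶠ x in 𝓝[Set.univ ×ˢ bx L (R / 2)] y₀, ∀ i : Fin L,
        x.2 i ∈ closedBall (y₀.2 i) 1 := by
      rw [eventually_all]
      intro i
      have : ContinuousAt (fun x : E × (Fin L → ℂ) => x.2 i) y₀ := by fun_prop
      exact mem_nhdsWithin_of_mem_nhds
        (this (closedBall_mem_nhds _ one_pos))
    filter_upwards [self_mem_nhdsWithin, h1] with x hx h1
    intro i _
    have hxe := ex_mem hx.2
    dsimp only
    by_cases hi : (i : ℕ) < j
    · rw [if_pos hi, mem_closedBall_zero_iff]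
      exact ((hQ.cr x.1).sm j hj _ hxe i hi).1
    · rw [if_neg hi]
      have : rs L (zz x.1 j (ex L x.2)) i = x.2 i := by
        show zz x.1 j (ex L x.2) i = x.2 i
        rw [(hQ.cr x.1).rest j hj _ hxe i (by omega), ex_apply _ i.2]
      rw [this]
      exact h1 i
  · intro y hyK hy
    rw [mapClusterPt_iff_ultrafilter] at hy
    obtain ⟨U, hU, hUt⟩ := hy
    have hUx : Tendsto (fun x : E × (Fin L → ℂ) => x) U (𝓝 y₀) := hU.trans nhdsWithin_le_nhds
    have hUm : ∀ᶠ x in (U : Filter (E × (Fin L → ℂ))), x ∈ Set.univ ×ˢ bx L (R / 2) :=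
      hU self_mem_nhdsWithin
    have hyi : ∀ i : Fin L, Tendsto (fun x : E × (Fin L → ℂ) => zz x.1 j (ex L x.2) i) U
        (𝓝 (y i)) := by
      intro i
      exact ((continuous_apply i).tendsto y).comp hUt
    -- coordinates of `y`
    have hyr : ∀ i : Fin L, j ≤ (i : ℕ) → y i = y₀.2 i := by
      intro i hi
      refine tendsto_nhds_unique (hyi i) ?_
      have h1 : Tendsto (fun x : E × (Fin L → ℂ) => x.2 i) U (𝓝 (y₀.2 i)) :=
        ((by fun_prop : Continuous fun x : E × (Fin L → ℂ) => x.2 i).tendsto y₀).comp hUx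
      refine h1.congr' ?_
      filter_upwards [hUm] with x hx
      rw [(hQ.cr x.1).rest j hj _ (ex_mem hx.2) i hi, ex_apply _ i.2]
    have hyb : y ∈ bx L (R / 2) := by
      intro i
      by_cases hi : (i : ℕ) < j
      · have h1 := hyK i (Set.mem_univ _)
        dsimp only at h1
        rw [if_pos hi, mem_closedBall_zero_iff] at h1
        have h2 := ((hQ.cr y₀.1).sm j hj _ (ex_mem hx₀) i hi).2.1
        exact mem_Rc_of_norm le_rfl (by linarith)
      · rw [hyr i (by omega)]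
        exact hx₀ i
    have hyR : y ∈ bx L R := fun i => Rc_mono (by linarith) (by linarith) (hyb i)
    have key : ex L y = zz y₀.1 j (ex L y₀.2) := by
      refine (hQ.cr y₀.1).uniq j hj _ (ex_mem hx₀) _ (ex_mem hyb) ?_ ?_
      · intro i hi
        by_cases hiL : i < L
        · rw [ex_apply _ hiL, ex_apply _ hiL]
          exact hyr ⟨i, hiL⟩ hi
        · rw [ex_apply' _ hiL, ex_apply' _ hiL]
      · intro i hi
        have hiL : i < L := by omega
        have hDc : ContinuousAt (fun x : E × (Fin L → ℂ) => D x.1 i (ex L x.2)) (y₀.1, y) :=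
          (hQ.cD i hiL).continuousAt ((isOpen_E R).mem_nhds ⟨Set.mem_univ _, hyR⟩)
        have hpr : Tendsto (fun x : E × (Fin L → ℂ) => (x.1, rs L (zz x.1 j (ex L x.2)))) U
            (𝓝 (y₀.1, y)) :=
          ((continuous_fst.tendsto y₀).comp hUx).prodMk_nhds hUt
        have t1 : Tendsto (fun x : E × (Fin L → ℂ) =>
            Complex.I * a i * zz x.1 j (ex L x.2) i / (2 * π) +
            Complex.I + D x.1 i (ex L (rs L (zz x.1 j (ex L x.2))))) U
            (𝓝 (Complex.I * a i * ex L y i / (2 * π) + Complex.I + D y₀.1 i (ex L y))) := by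
          refine Tendsto.add (Tendsto.add (Tendsto.div_const (Tendsto.const_mul _ ?_) _)
            tendsto_const_nhds) ?_
          · rw [ex_apply _ hiL]
            exact hyi ⟨i, hiL⟩
          · exact hDc.tendsto.comp hpr
        have t2 : (fun x : E × (Fin L → ℂ) => Complex.I * a i * zz x.1 j (ex L x.2) i / (2 * π) +
            Complex.I + D x.1 i (ex L (rs L (zz x.1 j (ex L x.2))))) =ᶠ[U] fun _ => 0 := by
          filter_upwards [hUm] with x hx
          have e : D x.1 i (ex L (rs L (zz x.1 j (ex L x.2)))) = D x.1 i (zz x.1 j (ex L x.2)) :=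
            ((hQ.pa x.1).pot.dep _ _ fun k hk => ex_rs _ hk).2 i
          rw [e]
          exact (hQ.cr x.1).crit j hj _ (ex_mem hx.2) i hi
        exact tendsto_nhds_unique t1 (tendsto_const_nhds.congr' t2.symm)
    funext i
    have h1 := congrFun key i
    rw [ex_apply _ i.2] at h1
    exact h1

/-- continuity of the critical value -/
theorem U_contE (hQ : HQ E L R c B p₀ B' C S D a zz) {j : ℕ} (hj : j ≤ L) :
    ContinuousOn (fun y : E × (Fin L → ℂ) => Uj (S y.1) a j (zz y.1 j (ex L y.2)))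
      (Set.univ ×ˢ bx L (R / 2)) := by
  have hz := zz_contE hQ hj
  have hm : Set.MapsTo (fun y : E × (Fin L → ℂ) => (y.1, rs L (zz y.1 j (ex L y.2))))
      (Set.univ ×ˢ bx L (R / 2)) (Set.univ ×ˢ bx L R) := fun x hx =>
    ⟨Set.mem_univ _, rs_mem (zz_mem (hQ.pa x.1).pot (hQ.cr x.1) hj (ex_mem hx.2))⟩
  have h1 : ContinuousOn (fun y : E × (Fin L → ℂ) => S y.1 (ex L (rs L (zz y.1 j (ex L y.2)))))
      (Set.univ ×ˢ bx L (R / 2)) :=
    hQ.cS.comp (continuous_fst.continuousOn.prodMk hz) hm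
  have h2 : ∀ i < j, ContinuousOn (fun y : E × (Fin L → ℂ) => zz y.1 j (ex L y.2) i)
      (Set.univ ×ˢ bx L (R / 2)) := by
    intro i hi
    exact (continuous_apply (⟨i, by omega⟩ : Fin L)).comp_continuousOn hz
  have h3 : ContinuousOn (fun y : E × (Fin L → ℂ) => S y.1 (ex L (rs L (zz y.1 j (ex L y.2)))) +
      ∑ i ∈ range j, (Complex.I * a i * zz y.1 j (ex L y.2) i ^ 2 / (4 * π) +
        Complex.I * zz y.1 j (ex L y.2) i)) (Set.univ ×ˢ bx L (R / 2)) := by
    refine h1.add (continuousOn_finsetSum _ fun i hi => ?_)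
    have h4 := h2 i (mem_range.1 hi)
    exact ((continuousOn_const.mul (h4.pow 2)).div_const _).add (continuousOn_const.mul h4)
  refine h3.congr fun x _ => ?_
  show S x.1 (zz x.1 j (ex L x.2)) + _ = S x.1 (ex L (rs L (zz x.1 j (ex L x.2)))) + _
  rw [((hQ.pa x.1).pot.dep (ex L (rs L (zz x.1 j (ex L x.2)))) (zz x.1 j (ex L x.2))
    fun k hk => ex_rs _ hk).1]

/-- properties of the critical point of one step, absolute constants -/
theorem step_propsA {S : (ℕ → ℂ) → ℂ} {D : ℕ → (ℕ → ℂ) → ℂ} {zz : ℕ → (ℕ → ℂ) → ℕ → ℂ}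
    (hA : PotA L R c B p₀ B' S D) (hK : Crt L R c B' (p₀ * L) C S D a zz) (hC : 0 < C)
    {j : ℕ} (hj : j < L) (haj : MM R c B C ≤ |(a j : ℝ)|) {ψ : ℕ → ℂ} (hψ : ψ ∈ Bx L (R / 2)) :
    CPt C (R / 8) (R / 8) (a j) (zz (j + 1) ψ j) ∧
    SAD (a j) (GG S a zz j ψ) (R / 8) (zz (j + 1) ψ j) ∧
    ‖zz (j + 1) ψ j‖ < R / 16 ∧
    (deriv (deriv (qq (a j) (GG S a zz j ψ))) (zz (j + 1) ψ j)).re ≤ -(c / 2) ∧
    Uj S a (j + 1) (zz (j + 1) ψ) = qq (a j) (GG S a zz j ψ) (zz (j + 1) ψ j) := by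
  have hP := hA.pot
  have hR := hP.hR.1
  have hR1 := hP.hR.2
  have hc := hP.hc
  have hB := hA.hB
  set C1 : ℝ := max 1 (B / (R / 8)) with hC1
  have hC11 : 1 ≤ C1 := le_max_left _ _
  have hpi := Real.pi_pos
  have hM1 : 0 < 8 * π / (R / 8) := by positivity
  have hM2 : 0 < 2 * π * (4 * C1 + 10) / (c / 2 * (R / 8) ^ 2) := by positivity
  have hM3 : 0 < 8 * π * C1 := by positivity
  have hM : MM R c B C = 8 * π * C1 + (8 * π / (R / 8) + 1) +
    (2 * π * (4 * C1 + 10) / (c / 2 * (R / 8) ^ 2) + 1) + C := rfl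
  have hGH := Pool.Agent.Y472.H.GG_GHA hA hK hj hψ
  rw [← hC1] at hGH
  set z : ℂ := zz (j + 1) ψ j with hz
  have ha0 : 0 < |(a j : ℝ)| := lt_of_lt_of_le (by rw [hM]; positivity) haj
  set A : ℝ := a j / (2 * π) with hA
  have hAabs : |A| = |(a j : ℝ)| / (2 * π) := by
    rw [hA, abs_div, abs_of_pos (by positivity : (0 : ℝ) < 2 * π)]
  have hApos : 0 < |A| := by rw [hAabs]; positivity
  have hsm := hK.sm (j + 1) hj ψ hψ j (Nat.lt_succ_self j)
  have hsq : ((a j : ℝ)) ^ 2 = |(a j : ℝ)| ^ 2 := (sq_abs _).symm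
  have hznorm : ‖z‖ ≤ 2 / |A| := by
    have h1 := hsm.2.2.1
    have h2 : ‖(2 * π / a j : ℂ)‖ = 2 * π / |(a j : ℝ)| := by
      rw [norm_div, norm_mul]
      simp [abs_of_pos hpi]
    have h3 : ‖z‖ ≤ ‖z + 2 * π / a j‖ + ‖(2 * π / a j : ℂ)‖ := by
      have := norm_sub_le (z + 2 * π / a j) (2 * π / a j)
      simpa using this
    have h4 : C / (a j : ℝ) ^ 2 ≤ 2 * π / |(a j : ℝ)| := by
      rw [hsq, div_le_div_iff₀ (by positivity) ha0]
      have h5 : C ≤ |(a j : ℝ)| := by linarith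
      have h6 : C * |(a j : ℝ)| ≤ |(a j : ℝ)| * |(a j : ℝ)| :=
        mul_le_mul_of_nonneg_right h5 ha0.le
      have h7 : |(a j : ℝ)| * |(a j : ℝ)| ≤ 2 * π * |(a j : ℝ)| ^ 2 := by
        have := Real.pi_gt_three
        nlinarith [sq_nonneg |(a j : ℝ)|]
      linarith
    have h5 : 2 / |A| = 2 * π / |(a j : ℝ)| + 2 * π / |(a j : ℝ)| := by
      rw [hAabs]
      field_simp
      ring
    rw [h5]
    linarith
  have hstep := hK.step j hj ψ hψ
  have hzR2 : z ∈ Rc (R / 2) (R / 2) :=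
    mem_Rc_of_norm le_rfl (by linarith [hsm.1, hsm.2.1])
  have hcr : Complex.I * A * z + Complex.I + deriv (GG S a zz j ψ) z = 0 := by
    rw [GG_deriv hK hj hψ hzR2, hstep.2]
    have h1 := hK.crit (j + 1) hj ψ hψ j (Nat.lt_succ_self j)
    rw [← h1, hA]
    push_cast
    ring
  have hA1 : 4 * C1 ≤ |A| := by
    rw [hAabs, le_div_iff₀ (by positivity)]
    linarith
  have hA2 : 4 / |A| < R / 8 := by
    rw [hAabs, div_div_eq_mul_div, div_lt_iff₀ ha0]
    have h1 : 8 * π / (R / 8) < |(a j : ℝ)| := by linarith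
    rw [div_lt_iff₀ (by positivity)] at h1
    linarith
  have hA3 : (4 * C1 + 10) / |A| < c / 2 * (R / 8) ^ 2 := by
    rw [hAabs, div_div_eq_mul_div, div_lt_iff₀ ha0]
    have h1 : 2 * π * (4 * C1 + 10) / (c / 2 * (R / 8) ^ 2) < |(a j : ℝ)| := by linarith
    rw [div_lt_iff₀ (by positivity)] at h1
    linarith
  obtain ⟨hzm, him, -, hSAD, -⟩ := crit_props hGH (by positivity) le_rfl (by linarith)
    (by positivity) hC11 (a j) A hA hA1 hA2 hA3 z hznorm hcr
  refine ⟨⟨hzm, hsm.2.2.2, hsm.2.2.1⟩, hSAD, ?_, ?_, hstep.1⟩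
  · have h1 : 4 / |A| = 2 / |A| + 2 / |A| := by ring
    linarith
  · rw [hGH.deriv2_qq (a j) (Rc_mono (by linarith) (by linarith) hzm), Complex.add_re,
      Pool.Agent.W293.HT.re_I_a, zero_add]
    exact GG_conc hK hj hψ hzR2

/-- the value with the terms of the first regions is bounded -/
theorem U_bdA {S : (ℕ → ℂ) → ℂ} {D : ℕ → (ℕ → ℂ) → ℂ} {zz : ℕ → (ℕ → ℂ) → ℕ → ℂ}
    (hA : PotA L R c B p₀ B' S D) (hK : Crt L R c B' (p₀ * L) C S D a zz) {j : ℕ} (hj : j ≤ L) :
    ∀ ψ ∈ Bx L (R / 2), ‖Uj S a j (zz j ψ)‖ ≤ B' + ∑ i ∈ range j, C / |(a i : ℝ)| := by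
  have hR := hA.pot.hR.1
  intro ψ hψ
  have h1 := (hK.close j hj ψ hψ).1
  have hm : (fun i => if i < j then 0 else ψ i) ∈ Bx L R := by
    intro i hi
    dsimp only
    split_ifs
    · exact mem_Rc_of_norm le_rfl (by rw [norm_zero]; exact hR)
    · exact Rc_mono (by linarith) (by linarith) (hψ i hi)
  have h2 := (hA.pot.bd _ hm).1
  have h3 := norm_add_le (Uj S a j (zz j ψ) - S (fun i => if i < j then 0 else ψ i))
    (S (fun i => if i < j then 0 else ψ i))
  rw [sub_add_cancel] at h3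
  linarith

/-- continuity of the near integral -/
theorem LN_cont {X : Type} [TopologicalSpace X] (ρ : ℝ) (a : ℤ) {N : ℕ} (hN : 1 ≤ N)
    {g : X → ℂ → ℂ} (hg : Continuous fun p : X × ℂ => g p.1 p.2) :
    Continuous fun x => LN ρ a N (g x) := by
  unfold LN
  refine intervalIntegral.continuous_parametric_intervalIntegral_of_continuous' ?_ _ _
  have h1 : Continuous fun x : ℝ => Ea a N (x + (1 / N : ℝ) * Complex.I) *
      (fun _ => (1 : ℂ)) (x + (1 / N : ℝ) * Complex.I) * kr N (x + (1 / N : ℝ) * Complex.I) :=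
    Pool.Agent.W711.HT.cont_hor hN a continuous_const
  have h2 : Continuous fun p : X × ℝ => (Ea a N ((p.2 : ℂ) + (1 / N : ℝ) * Complex.I) *
      (fun _ => (1 : ℂ)) ((p.2 : ℂ) + (1 / N : ℝ) * Complex.I) *
      kr N ((p.2 : ℂ) + (1 / N : ℝ) * Complex.I)) * g p.1 (p.2 + (1 / N : ℝ) * Complex.I) := by
    refine (h1.comp continuous_snd).mul ?_
    exact hg.comp (by fun_prop : Continuous fun p : X × ℝ =>
      ((p.1, (p.2 : ℂ) + (1 / N : ℝ) * Complex.I) : X × ℂ))
  refine h2.congr fun p => ?_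
  simp only [Function.uncurry]
  ring

theorem itN_cont {r : ℕ → ℝ} {a : ℕ → ℤ} {N : ℕ} (hN : 1 ≤ N) {f : E → (ℕ → ℂ) → ℂ}
    (hc : Continuous fun x : E × (Fin L → ℂ) => f x.1 (ex L x.2)) {j : ℕ} (hj : j ≤ L) :
    Continuous fun x : E × (Fin L → ℂ) => itN r a N j (f x.1) (ex L x.2) := by
  induction j with
  | zero => exact hc
  | succ j ih =>
    have h1 := ih (by omega)
    have h2 : Continuous fun p : (E × (Fin L → ℂ)) × ℂ =>
        itN r a N j (f p.1.1) (Function.update (ex L p.1.2) j p.2) := by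
      have h3 : Continuous fun p : (E × (Fin L → ℂ)) × ℂ =>
          ((p.1.1, Function.update p.1.2 ⟨j, hj⟩ p.2) : E × (Fin L → ℂ)) :=
        (by fun_prop : Continuous fun p : (E × (Fin L → ℂ)) × ℂ => p.1.1).prodMk
          ((by fun_prop : Continuous fun p : (E × (Fin L → ℂ)) × ℂ => p.1.2).update _
            continuous_snd)
      refine (h1.comp h3).congr fun p => ?_
      simp only [Function.comp]
      rw [ex_upd hj]
    exact LN_cont (r j) (a j) hN (g := fun (x : E × (Fin L → ℂ)) w =>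
      itN r a N j (f x.1) (Function.update (ex L x.2) j w)) h2

end Pool.Agent.Y472.CJ
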